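import Pool.Agent.N610.CH.Stm
import Pool.Agent.N610.JW.COR

set_option autoImplicit false

/-!
# Jump inequality along chains of moduli: every fixed system (project CH, leaf CCO, by helper227)

The reduction is the one of `Pool.Agent.N610.JW.COR` (helper914).
-/

namespace Pool.Agent.N610.CH.CCO

open Polynomial Finset Filter
open Pool.Agent.H373R2.T7 (nuB PerB pz)
open Pool.Agent.W123.RU.Poly (Q Sys V_bounds)
open Pool.Agent.N610.JV (Jumps)
open Pool.Agent.N610.JW (SysH om V Rough)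
open Pool.Agent.N610.JW.COR (V_eq grow_all coeff_bd)
open Pool.Agent.N610.CH

/-- change of the normalisation -/
lemma dq_eq {k : ℕ} (g : Fin k → ℤ[X]) (A : Set ℕ) (N Y q n : ℕ) (v w : ℝ) (hv : v ≠ 0)
    (hw : w ≠ 0) : dq g A w N Y q n = dq g A v N Y q n * (v / w) := by
  unfold dq
  by_cases hY : (Y : ℝ) = 0
  · rw [hY]; simp
  · by_cases hq : (q : ℝ) * P g q = 0
    · rw [hq]; simp
    · generalize (q : ℝ) * P g q = u at hq
      field_simp

lemma cls_zero (A : Set ℕ) (N Y q a m0 : ℕ) (hA : ∀ m ∈ A, m ≤ m0) (hn : m0 ≤ N) :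
    cls A N Y q a = 0 := by
  classical
  unfold cls
  rw [Finset.card_eq_zero, Finset.filter_eq_empty_iff]
  rintro m hm ⟨hmA, -⟩
  have := hA m hmA
  rw [mem_Ioc] at hm
  omega

lemma jumps_zero {a : ℕ → ℝ} (ha : ∀ j, a j = 0) {lo hi k : ℕ} {lam : ℝ} (hl : 0 < lam)
    (h : Jumps a lo hi lam k) : k = 0 := by
  by_contra hk
  obtain ⟨s, t, h1, -⟩ := h
  obtain ⟨-, -, -, h2⟩ := h1 0 (Nat.pos_of_ne_zero hk)
  rw [ha, ha] at h2
  simp at h2
  linarith

theorem main (h : S_CHJ) (k : ℕ) (g : Fin k → ℤ[X]) (hk : 1 ≤ k) (hS : Sys g) (θ : ℝ) (hθ : 0 < θ)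
    (_hθ1 : θ ≤ 1) : ∃ K : ℝ, 0 < K ∧ ∀ᶠ X : ℕ in atTop, ∀ Y : ℕ, (X : ℝ) ^ θ ≤ Y → Y ≤ X →
      ∀ A : Set ℕ, (∀ m ∈ A, ∀ i, ((g i).eval (m : ℤ)).natAbs.Prime) → ∀ (J : ℕ) (q : ℕ → ℕ),
        (∀ j < J, q j ∣ q (j + 1)) → 1 ≤ q J → q J * Real.log X ^ k ≤ Y →
          (∀ m ∈ A, X < m → m ≤ X + Y → Red g (q J) m) → ∀ lam : ℝ, 0 < lam → ∀ M : ℕ → ℕ,
            (∀ n ∈ RC g (q J), Jumps (fun j => dq g A (1 / Real.log X ^ k) X Y (q j) n) 0 J lam
              (M n)) →
              ∑ n ∈ RC g (q J), (M n : ℝ) ≤ K * (RC g (q J)).card / lam ^ 2 := by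
  classical
  obtain ⟨v, Cv, hv, hCv, hVb⟩ := V_bounds g hS
  rw [Fintype.card_fin] at hVb
  obtain ⟨T, hT⟩ := coeff_bd g
  obtain ⟨c, hc, m0, hm0⟩ := grow_all g hS.deg
  -- the constants
  set d : ℕ := ∑ i, (g i).natDegree with hd
  have hd1 : 1 ≤ d := by
    have h1 : 0 < (g ⟨0, hk⟩).natDegree := hS.deg _
    have h2 : (g ⟨0, hk⟩).natDegree ≤ d := Finset.single_le_sum (f := fun i => (g i).natDegree)
      (fun _ _ => Nat.zero_le _) (mem_univ _)
    omega
  set C : ℕ := ⌈1 / v⌉₊ + 1 with hC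
  have hC1 : 1 ≤ C := by omega
  have hCv1 : 1 / v ≤ C := by
    have := Nat.le_ceil (1 / v)
    rw [hC]; push_cast; linarith
  have hCr : (1 : ℝ) ≤ C := by exact_mod_cast hC1
  obtain ⟨K, hK, hev⟩ := h k d C 2 hk hd1 hC1 (by norm_num)
  obtain ⟨Y0, hY0⟩ := eventually_atTop.1 hev
  set B : ℝ := Cv / θ ^ k with hB
  have hBpos : 0 < B := by positivity
  refine ⟨K * B ^ 2, by positivity, ?_⟩
  -- large X
  have hYl : ∀ᶠ X : ℕ in atTop, max (max (Y0 : ℝ) 3) (max T (c ^ 2 + 1)) ≤ (X : ℝ) ^ θ :=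
    ((tendsto_rpow_atTop hθ).comp tendsto_natCast_atTop_atTop).eventually_ge_atTop _
  filter_upwards [hYl, eventually_ge_atTop m0, eventually_ge_atTop 3] with X hX1 hX2 hX3
  intro Y hY1 hY2 A hA J q hdiv hqJ hqY hRed lam hlam M hM
  have hYr := hX1.trans hY1
  simp only [max_le_iff] at hYr
  obtain ⟨⟨hYa, hYb⟩, hYc, hYd⟩ := hYr
  have hY00 : Y0 ≤ Y := by exact_mod_cast hYa
  have hY3 : 3 ≤ Y := by exact_mod_cast hYb
  have hYX : (Y : ℝ) ≤ X := by exact_mod_cast hY2
  have hlogY : 1 ≤ Real.log Y := by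
    rw [Real.le_log_iff_exp_le (by linarith)]
    have := Real.exp_one_lt_d9
    linarith
  have hlogYX : Real.log Y ≤ Real.log X := Real.log_le_log (by linarith) hYX
  have hlogX : 1 ≤ Real.log X := hlogY.trans hlogYX
  have hlogθ : θ * Real.log X ≤ Real.log Y := by
    have hX0 : (0 : ℝ) < X := by linarith
    rw [← Real.log_rpow hX0]
    exact Real.log_le_log (by positivity) hY1
  obtain ⟨hV1, hV2⟩ := hVb Y hY3
  rw [← V_eq] at hV1 hV2
  set W : ℝ := V g Y with hW
  have hLk : 0 < Real.log Y ^ k := by positivity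
  have hXk : 0 < Real.log X ^ k := by positivity
  have hWpos : 0 < W := lt_of_lt_of_le (by positivity) hV1
  have hWB : W * Real.log X ^ k ≤ B := by
    have h1 : W * Real.log X ^ k ≤ Cv / Real.log Y ^ k * Real.log X ^ k :=
      mul_le_mul_of_nonneg_right hV2 hXk.le
    refine h1.trans ?_
    rw [hB, div_mul_eq_mul_div, div_le_div_iff₀ hLk (by positivity)]
    rw [mul_assoc]
    apply mul_le_mul_of_nonneg_left _ hCv.le
    rw [← mul_pow, mul_comm (Real.log X) θ]
    exact pow_le_pow_left₀ (by positivity) hlogθ k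
  have hSysH : SysH k d ((Y : ℝ) ^ C) g := by
    refine ⟨hS, fun i => ?_, fun i j => ?_⟩
    · exact Finset.single_le_sum (f := fun i => (g i).natDegree) (fun _ _ => Nat.zero_le _)
        (mem_univ i)
    · refine (hT i j).trans (hYc.trans ?_)
      have : (1 : ℝ) ≤ Y := by linarith
      exact le_self_pow₀ this (by omega)
  have hRough : Rough g A ((Y : ℝ) ^ (1 / ((2 : ℕ) : ℝ))) X (X + Y) := by
    intro m hm h1 _ i p hp hpd
    have h2 := hA m hm i
    have h3 : p ∣ ((g i).eval (m : ℤ)).natAbs := Int.natCast_dvd.1 hpd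
    have h4 : p = ((g i).eval (m : ℤ)).natAbs := (Nat.prime_dvd_prime_iff_eq hp h2).1 h3
    have h5 := hm0 m (by omega) i
    rw [← h4] at h5
    have h6 : (X : ℝ) < m := by exact_mod_cast h1
    have h7 : (Y : ℝ) < c * p := by linarith
    rw [show (1 / ((2 : ℕ) : ℝ)) = 1 / 2 by norm_num, ← Real.sqrt_eq_rpow]
    rw [Real.sqrt_lt' (by exact_mod_cast hp.pos)]
    have h8 : (Y : ℝ) ^ 2 < (c * p) ^ 2 := by
      apply pow_lt_pow_left₀ h7 (by linarith) (by norm_num)
    have h9 : c ^ 2 * Y < c ^ 2 * (p : ℝ) ^ 2 := by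
      calc c ^ 2 * (Y : ℝ) ≤ Y * Y := by
            apply mul_le_mul_of_nonneg_right _ (by linarith)
            linarith
        _ = (Y : ℝ) ^ 2 := by ring
        _ < (c * p) ^ 2 := h8
        _ = c ^ 2 * (p : ℝ) ^ 2 := by ring
    exact lt_of_mul_lt_mul_left h9 (by positivity)
  have hqr : (0 : ℝ) < q J := by exact_mod_cast hqJ
  have hYq : Real.log X ^ k ≤ (Y : ℝ) / q J := by
    rw [le_div_iff₀ hqr]
    linarith
  have hfin := hY0 Y hY00 g hSysH X A hRough J q hdiv hqJ ?_ ?_ hRed (lam / B) (by positivity) M ?_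
  · refine hfin.trans (le_of_eq ?_)
    field_simp
  · calc Real.log Y ≤ Real.log X := hlogYX
      _ ≤ Real.log X ^ k := le_self_pow₀ hlogX (by omega)
      _ ≤ (Y : ℝ) / q J := hYq
      _ = 1 * ((Y : ℝ) / q J) := (one_mul _).symm
      _ ≤ C * ((Y : ℝ) / q J) := by gcongr
  · have h1 : 1 ≤ C * v := by
      rw [div_le_iff₀ hv] at hCv1
      exact hCv1
    have h2 : v ≤ Real.log X ^ k * W := by
      calc v = Real.log Y ^ k * (v / Real.log Y ^ k) := by field_simp
        _ ≤ Real.log X ^ k * W := by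
            apply mul_le_mul _ hV1 (by positivity) hXk.le
            exact pow_le_pow_left₀ (by linarith) hlogYX k
    calc (1 : ℝ) ≤ C * v := h1
      _ ≤ C * (Real.log X ^ k * W) := by gcongr
      _ ≤ C * ((Y : ℝ) / q J * W) := by gcongr
      _ = C * ((Y : ℝ) / q J) * W := by ring
  · intro n hn
    obtain ⟨s, t, h1, h2⟩ := hM n hn
    refine ⟨s, t, fun i hi => ?_, h2⟩
    obtain ⟨a1, a2, a3, a4⟩ := h1 i hi
    refine ⟨a1, a2, a3, ?_⟩
    have e : ∀ r, dq g A (1 / Real.log X ^ k) X Y r n = dq g A W X Y r n *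
        (W * Real.log X ^ k) := by
      intro r
      rw [dq_eq g A X Y r n W (1 / Real.log X ^ k) hWpos.ne' (by positivity)]
      congr 1
      rw [div_div_eq_mul_div, div_one]
    have a5 : lam ≤ |dq g A (1 / Real.log X ^ k) X Y (q (t i)) n -
      dq g A (1 / Real.log X ^ k) X Y (q (s i)) n| := a4
    rw [e, e, ← sub_mul, abs_mul, abs_of_pos (mul_pos hWpos hXk)] at a5
    show lam / B ≤ |dq g A W X Y (q (t i)) n - dq g A W X Y (q (s i)) n|
    rw [div_le_iff₀ hBpos]
    exact a5.trans (mul_le_mul_of_nonneg_left hWB (abs_nonneg _))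

end Pool.Agent.N610.CH.CCO

namespace Pool.Agent.N610.CH

open Polynomial Finset Filter
open Pool.Agent.W123.RU.Poly (Sys)
open Pool.Agent.N610.JV (Jumps)
open Pool.Agent.N610.JW (om)

open CCO Pool.Agent.N610.JW.COR in
theorem t_CCO (h : S_CHJ) : S_CCO := by
  classical
  intro k f hk hirr hdeg hne θ hθ hθ1
  set g : Fin k → ℤ[X] := fun i => if 0 < (f i).leadingCoeff then f i else - f i with hg
  have hgf : ∀ i, g i = f i ∨ g i = - f i := by
    intro i
    by_cases h : 0 < (f i).leadingCoeff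
    · left; simp [hg, h]
    · right; simp [hg, h]
  have hnat : ∀ i (m : ℤ), ((g i).eval m).natAbs = ((f i).eval m).natAbs := by
    intro i m
    rcases hgf i with h | h
    · rw [h]
    · rw [h, eval_neg, Int.natAbs_neg]
  have hdvd : ∀ (p : ℕ) i (m : ℤ), (p : ℤ) ∣ (g i).eval m ↔ (p : ℤ) ∣ (f i).eval m := by
    intro p i m
    rcases hgf i with h | h
    · rw [h]
    · rw [h, eval_neg, dvd_neg]
  have eRed : ∀ q a, Red g q a ↔ Red f q a := by
    intro q a
    unfold Red
    simp only [hdvd]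
  have eom : ∀ p, om g p = om f p := by
    intro p
    unfold Pool.Agent.N610.JW.om
    simp only [hdvd]
  have eP : ∀ q, P g q = P f q := by
    intro q
    unfold P
    simp only [eom]
  have eRC : ∀ q, RC g q = RC f q := by
    intro q
    unfold RC
    simp only [eRed]
  have edq : ∀ (A : Set ℕ) (v : ℝ) (N Y q n : ℕ), dq g A v N Y q n = dq f A v N Y q n := by
    intro A v N Y q n
    unfold dq
    rw [eP]
  have gdeg : ∀ i, 0 < (g i).natDegree := by
    intro i
    rcases hgf i with h | h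
    · rw [h]; exact hdeg i
    · rw [h, natDegree_neg]; exact hdeg i
  by_cases hadm : ∀ p : ℕ, p.Prime → ∃ m : ℕ, ∀ i, ¬ (p : ℤ) ∣ (g i).eval (m : ℤ)
  · have hS : Sys g := by
      refine ⟨?_, gdeg, ?_, ?_, hadm⟩
      · intro i
        rcases hgf i with h | h
        · rw [h]; exact hirr i
        · rw [h]; exact (Associated.refl (f i)).neg_right.irreducible (hirr i)
      · intro i
        by_cases h : 0 < (f i).leadingCoeff
        · simp [hg, h]
        · have h0 : (f i).leadingCoeff ≠ 0 := by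
            rw [Ne, leadingCoeff_eq_zero]
            exact (hirr i).ne_zero
          simp only [hg, if_neg h, leadingCoeff_neg]
          omega
      · intro i j hij
        by_contra hc
        obtain ⟨n1, n2⟩ := hne i j hc
        rcases hgf i with h | h <;> rcases hgf j with h' | h' <;> rw [h, h'] at hij
        · exact n1 hij
        · exact n2 hij
        · apply n2; rw [← hij, neg_neg]
        · exact n1 (neg_injective hij)
    obtain ⟨K, hK, hev⟩ := main h k g hk hS θ hθ hθ1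
    refine ⟨K, hK, ?_⟩
    filter_upwards [hev] with X hX Y hY1 hY2 A hA J q hdiv hqJ hqY hRed lam hlam M hM
    have := hX Y hY1 hY2 A (by
      intro m hm i
      rw [hnat]
      exact hA m hm i) J q hdiv hqJ hqY (fun m hm h1 h2 => (eRed _ _).2 (hRed m hm h1 h2)) lam hlam
      M (by
        intro n hn
        rw [eRC] at hn
        have h1 := hM n hn
        simp only [edq]
        exact h1)
    rw [eRC] at this
    exact this
  · push Not at hadm
    obtain ⟨p, hp, hbad⟩ := hadm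
    obtain ⟨c, hc, m0, hm0⟩ := grow_all g gdeg
    refine ⟨1, one_pos, ?_⟩
    filter_upwards [eventually_ge_atTop (max m0 ⌈c * p⌉₊)] with X hX Y hY1 hY2 A hA J q hdiv hqJ
      hqY hRed lam hlam M hM
    have hAb : ∀ m ∈ A, m ≤ max m0 ⌈c * p⌉₊ := by
      intro m hm
      by_contra hcon
      push Not at hcon
      obtain ⟨h1, h2⟩ := max_lt_iff.1 hcon
      obtain ⟨i, hi⟩ := hbad m
      have h3 := hA m hm i
      rw [← hnat] at h3
      have h4 : p ∣ ((g i).eval (m : ℤ)).natAbs := Int.natCast_dvd.1 hi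
      have h5 : p = ((g i).eval (m : ℤ)).natAbs := (Nat.prime_dvd_prime_iff_eq hp h3).1 h4
      have h6 := hm0 m h1.le i
      rw [← h5] at h6
      have h7 := Nat.lt_of_ceil_lt h2
      linarith
    have hz : ∀ n ∈ RC f (q J), (M n : ℝ) = 0 := by
      intro n hn
      have := jumps_zero (a := fun j => dq f A (1 / Real.log X ^ k) X Y (q j) n) (fun j => by
        show dq f A (1 / Real.log X ^ k) X Y (q j) n = 0
        unfold dq
        rw [cls_zero A X Y (q j) n _ hAb hX]
        simp) hlam (hM n hn)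
      exact_mod_cast this
    rw [Finset.sum_eq_zero hz]
    positivity

end Pool.Agent.N610.CH
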