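import Pool.Agent.N610.CH.Stm
import Pool.Agent.N610.JW.MOM

set_option autoImplicit false

/-!
# Second moment of the rough values in residue classes (CH/CEN)
-/

namespace Pool.Agent.N610.CH

open Polynomial Finset Filter
open Pool.Agent.H373R2.T7 Pool.Agent.W123.RP Pool.Agent.W123.RU Pool.Agent.W123.RU.Poly
open Pool.Agent.TH464.PW (Qs)
open Pool.Agent.N610.JW Pool.Agent.N610.JW.MOM

namespace CEN

/-- the collisions at the multiples of `q`, away from `q` -/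
def Cq (Co : ℕ → ℕ → Prop) (q p h : ℕ) : Prop := ¬ p ∣ q ∧ Co p (h * q)

open Classical in
lemma coll_Cq (Co : ℕ → ℕ → Prop) (p0 D : ℕ) (h : Coll Co p0 D) (q : ℕ) : Coll (Cq Co q) p0 D := by
  refine ⟨fun p n => ?_, fun p hp hp0 => ?_⟩
  · unfold Cq
    rw [h.per p (n * q), h.per p (n % p * q)]
    have : n * q % p = n % p * q % p := by
      rw [Nat.mul_mod n q p, Nat.mul_mod (n % p) q p, Nat.mod_mod]
    rw [this]
  · by_cases hpq : p ∣ q
    · have : (range p).filter (fun r => Cq Co q p r) = ∅ := by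
        apply Finset.filter_false_of_mem
        intro r _ hr
        exact hr.1 hpq
      rw [this]
      simp
    · refine le_trans ?_ (h.few p hp hp0)
      apply Finset.card_le_card_of_injOn (fun r => r * q % p)
      · intro r hr
        rw [mem_coe, mem_filter] at hr
        rw [mem_coe, mem_filter, mem_range]
        exact ⟨Nat.mod_lt _ hp.pos, (h.per p (r * q)).1 hr.2.2⟩
      · intro r hr r' hr' hrr
        rw [mem_coe, mem_filter, mem_range] at hr hr'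
        have h1 : r * q ≡ r' * q [MOD p] := hrr
        have h2 : Nat.gcd p q = 1 := (Nat.Prime.coprime_iff_not_dvd hp).2 hpq
        have h3 : r ≡ r' [MOD p] := Nat.ModEq.cancel_right_of_coprime h2 h1
        have h4 : r % p = r' % p := h3
        rwa [Nat.mod_eq_of_lt hr.1, Nat.mod_eq_of_lt hr'.1] at h4

/-- the local product over the prime divisors of `q` -/
noncomputable def Pq (Q : ℕ → ℕ → Prop) (q : ℕ) : ℝ := ∏ p ∈ q.primeFactors, (1 - (nuB Q p : ℝ) / p)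

lemma fac_pos (Q : ℕ → ℕ → Prop) (hadm : ∀ p : ℕ, p.Prime → nuB Q p < p) (p : ℕ) (hp : p.Prime) :
    0 < 1 - (nuB Q p : ℝ) / p := by
  have hp0 : (0 : ℝ) < p := by exact_mod_cast hp.pos
  rw [sub_pos, div_lt_one hp0]
  exact_mod_cast hadm p hp

lemma fac_le_one (Q : ℕ → ℕ → Prop) (p : ℕ) : 1 - (nuB Q p : ℝ) / p ≤ 1 := by
  have : (0 : ℝ) ≤ (nuB Q p : ℝ) / (p : ℝ) := by positivity
  linarith

lemma Pq_pos (Q : ℕ → ℕ → Prop) (hadm : ∀ p : ℕ, p.Prime → nuB Q p < p) (q : ℕ) : 0 < Pq Q q :=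
  Finset.prod_pos fun p hp => fac_pos Q hadm p (Nat.prime_of_mem_primeFactors hp)

lemma Pq_le_one (Q : ℕ → ℕ → Prop) (hadm : ∀ p : ℕ, p.Prime → nuB Q p < p) (q : ℕ) : Pq Q q ≤ 1 :=
  Finset.prod_le_one (fun p hp => (fac_pos Q hadm p (Nat.prime_of_mem_primeFactors hp)).le)
    fun p _ => fac_le_one Q p

open Classical in
/-- comparison of one factor -/
lemma factor_leq (Q : ℕ → ℕ → Prop) (Co : ℕ → ℕ → Prop) (c p0 D : ℕ) (hS : Sdata Q Co c p0 D)
    (q h p : ℕ) (hp : p.Prime) : 1 - (nuB (Qh Q (h * q)) p : ℝ) / p ≤ (1 - (nuB Q p : ℝ) / p) ^ 2 *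
      ((if p ≤ p0 then (p : ℝ) ^ 2 else if Cq Co q p h then 1 + ((2 * c : ℕ) : ℝ) / p else 1) *
        (if p ∣ q then (1 - (nuB Q p : ℝ) / p)⁻¹ else 1)) := by
  have hpos := fac_pos Q hS.adm p hp
  by_cases hpq : p ∣ q
  · rw [if_pos hpq]
    have h1 : ¬ Cq Co q p h := fun hc => hc.1 hpq
    rw [if_neg h1]
    have hge : nuB Q p ≤ nuB (Qh Q (h * q)) p := by
      unfold nuB
      apply card_le_card
      intro r hr
      rw [mem_filter] at hr ⊢
      exact ⟨hr.1, Or.inl hr.2⟩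
    have hp0 : (0 : ℝ) < p := by exact_mod_cast hp.pos
    have h2 : (nuB Q p : ℝ) / p ≤ (nuB (Qh Q (h * q)) p : ℝ) / p := by
      apply div_le_div_of_nonneg_right _ hp0.le
      exact_mod_cast hge
    have h3 : (1 : ℝ) ≤ (if p ≤ p0 then (p : ℝ) ^ 2 else 1) := by
      split_ifs
      · have : (1 : ℝ) ≤ p := by exact_mod_cast hp.one_lt.le
        exact one_le_pow₀ this
      · exact le_rfl
    calc 1 - (nuB (Qh Q (h * q)) p : ℝ) / p ≤ (1 - (nuB Q p : ℝ) / p) * 1 := by linarith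
      _ ≤ (1 - (nuB Q p : ℝ) / p) * (if p ≤ p0 then (p : ℝ) ^ 2 else 1) :=
        mul_le_mul_of_nonneg_left h3 hpos.le
      _ = _ := by
        field_simp
  · rw [if_neg hpq, mul_one]
    have h1 : Cq Co q p h ↔ Co p (h * q) := ⟨fun hc => hc.2, fun hc => ⟨hpq, hc⟩⟩
    have h2 := factor_le Q Co c p0 D hS (h * q) p hp
    simp only [h1]
    exact h2

open Classical in
lemma prod_pair_leq (Q : ℕ → ℕ → Prop) (Co : ℕ → ℕ → Prop) (c p0 D : ℕ) (hS : Sdata Q Co c p0 D)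
    (q h y : ℕ) (hq : 1 ≤ q) :
    ∏ p ∈ pz y, (1 - (nuB (Qh Q (h * q)) p : ℝ) / p) ≤ (∏ p ∈ pz p0, (p : ℝ) ^ 2) *
      ((Vq Q y) ^ 2 / Pq Q q) *
      ∏ p ∈ (pz y).filter (fun p : ℕ => p0 < p ∧ Cq Co q p h), (1 + ((2 * c : ℕ) : ℝ) / p) := by
  have h1 : ∏ p ∈ pz y, (1 - (nuB (Qh Q (h * q)) p : ℝ) / p) ≤
      ∏ p ∈ pz y, ((1 - (nuB Q p : ℝ) / p) ^ 2 *
      ((if p ≤ p0 then (p : ℝ) ^ 2 else if Cq Co q p h then 1 + ((2 * c : ℕ) : ℝ) / p else 1) *
        (if p ∣ q then (1 - (nuB Q p : ℝ) / p)⁻¹ else 1))) := by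
    apply Finset.prod_le_prod
    · intro p hp
      exact one_sub_nonneg _ p (mem_pz.1 hp).2
    · intro p hp
      exact factor_leq Q Co c p0 D hS q h p (mem_pz.1 hp).2
  refine h1.trans ?_
  rw [Finset.prod_mul_distrib, Finset.prod_mul_distrib, Finset.prod_pow]
  have hA : ∏ p ∈ pz y, (if p ∣ q then (1 - (nuB Q p : ℝ) / p)⁻¹ else 1) ≤ (Pq Q q)⁻¹ := by
    rw [Finset.prod_ite, Finset.prod_const_one, mul_one]
    unfold Pq
    rw [← Finset.prod_inv_distrib]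
    apply Finset.prod_le_prod_of_subset_of_one_le
    · intro p hp
      rw [mem_filter, mem_pz] at hp
      exact Nat.mem_primeFactors.2 ⟨hp.1.2, hp.2, by omega⟩
    · intro p hp
      rw [mem_filter, mem_pz] at hp
      exact (inv_pos.2 (fac_pos Q hS.adm p hp.1.2)).le
    · intro p hp _
      exact (one_le_inv₀ (fac_pos Q hS.adm p (Nat.prime_of_mem_primeFactors hp))).2 (fac_le_one Q p)
  have hA0 : 0 ≤ ∏ p ∈ pz y, (if p ∣ q then (1 - (nuB Q p : ℝ) / p)⁻¹ else 1) := by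
    apply Finset.prod_nonneg
    intro p hp
    split_ifs
    · exact (inv_pos.2 (fac_pos Q hS.adm p (mem_pz.1 hp).2)).le
    · exact zero_le_one
  have hB : ∏ p ∈ pz y, (if p ≤ p0 then (p : ℝ) ^ 2 else
      if Cq Co q p h then 1 + ((2 * c : ℕ) : ℝ) / p else 1) ≤ (∏ p ∈ pz p0, (p : ℝ) ^ 2) *
      ∏ p ∈ (pz y).filter (fun p : ℕ => p0 < p ∧ Cq Co q p h), (1 + ((2 * c : ℕ) : ℝ) / p) := by
    rw [Finset.prod_ite]
    apply mul_le_mul
    · apply Finset.prod_le_prod_of_subset_of_one_le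
      · intro p hp
        rw [mem_filter, mem_pz] at hp
        rw [mem_pz]
        exact ⟨hp.2, hp.1.2⟩
      · intro p _; positivity
      · intro p hp _
        have : (1 : ℝ) ≤ p := by exact_mod_cast (mem_pz.1 hp).2.one_lt.le
        exact one_le_pow₀ this
    · rw [Finset.prod_ite, Finset.prod_const_one, mul_one, Finset.filter_filter]
      apply le_of_eq
      apply Finset.prod_congr _ (fun _ _ => rfl)
      ext p
      rw [mem_filter, mem_filter, not_le]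
    · apply Finset.prod_nonneg
      intro p _
      split_ifs <;> positivity
    · positivity
  have hB0 : 0 ≤ (∏ p ∈ pz p0, (p : ℝ) ^ 2) *
      ∏ p ∈ (pz y).filter (fun p : ℕ => p0 < p ∧ Cq Co q p h), (1 + ((2 * c : ℕ) : ℝ) / p) :=
    mul_nonneg (Finset.prod_nonneg fun p _ => by positivity)
      (Finset.prod_nonneg fun p _ => by positivity)
  have hV0 : 0 ≤ (∏ p ∈ pz y, (1 - (nuB Q p : ℝ) / p)) ^ 2 := sq_nonneg _
  calc (∏ p ∈ pz y, (1 - (nuB Q p : ℝ) / p)) ^ 2 * _ ≤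
      (∏ p ∈ pz y, (1 - (nuB Q p : ℝ) / p)) ^ 2 * (((∏ p ∈ pz p0, (p : ℝ) ^ 2) *
      ∏ p ∈ (pz y).filter (fun p : ℕ => p0 < p ∧ Cq Co q p h), (1 + ((2 * c : ℕ) : ℝ) / p)) *
        (Pq Q q)⁻¹) :=
        mul_le_mul_of_nonneg_left (mul_le_mul hB hA hA0 hB0) hV0
    _ = _ := by
      unfold Vq
      rw [div_eq_mul_inv]
      ring

open Classical in
/-- **Sum over shifts by multiples of `q`.** -/
theorem pair_sumq (c p0 D D' : ℕ) (hc : 1 ≤ c) :
    ∃ K : ℕ, 1 ≤ K ∧ ∃ C : ℝ, 0 < C ∧ ∃ x0 : ℕ, ∀ x y : ℕ, x0 ≤ y → y ^ K ≤ x →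
      ∀ Q Co : ℕ → ℕ → Prop, Sdata Q Co c p0 D →
      (((Icc 1 x).filter (fun m => ∀ p ∈ pz y, ¬ Q p m)).card : ℝ) ≤ 2 * x * Vq Q y + √(x : ℝ) ∧
      ∀ q : ℕ, 1 ≤ q → ∀ T : ℕ, x0 ≤ T → ∀ E : Finset ℕ, E ⊆ Icc 1 T →
        (∀ h ∈ E, ((pz y).filter (fun p : ℕ => Co p (h * q))).card ≤ D' * T) →
        ∑ h ∈ E, (((Icc 1 x).filter (fun m => ∀ p ∈ pz y, ¬ Qh Q (h * q) p m)).card : ℝ) ≤
          C * T * x * ((Vq Q y) ^ 2 / Pq Q q) + T * √(x : ℝ) := by
  obtain ⟨K, x0, hK, hfund⟩ := sys_fund (2 * c) (by omega) 1 one_pos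
  obtain ⟨C, hC, T0, hT0, havg⟩ := Pool.Agent.W123.RU.avg (2 * c) D D' p0
  set C0 : ℝ := ∏ p ∈ pz p0, (p : ℝ) ^ 2 with hC0
  have hC01 : 0 < C0 := by
    apply Finset.prod_pos
    intro p hp
    have : (0 : ℝ) < p := by exact_mod_cast (mem_pz.1 hp).2.pos
    positivity
  refine ⟨K, hK, 2 * C0 * C, by positivity, max x0 T0, ?_⟩
  intro x y hy hyx Q Co hS
  have hy0 : x0 ≤ y := (le_max_left _ _).trans hy
  have hup : ∀ Q' : ℕ → ℕ → Prop, PerB Q' (2 * c) →
      (((Icc 1 x).filter (fun m => ∀ p ∈ pz y, ¬ Q' p m)).card : ℝ) ≤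
      2 * x * ∏ p ∈ pz y, (1 - (nuB Q' p : ℝ) / p) + √(x : ℝ) := by
    intro Q' hQ'
    have h1 := (abs_le.1 (hfund x y hy0 hyx Q' hQ' x)).2
    linarith
  refine ⟨hup Q ⟨hS.per.per, fun p hp => (hS.per.few p hp).trans (by omega)⟩, ?_⟩
  intro q hq T hT E hE hE2
  have hT0' : T0 ≤ T := (le_max_right _ _).trans hT
  have hPpos := Pq_pos Q hS.adm q
  have h1 : ∀ h ∈ E, (((Icc 1 x).filter (fun m => ∀ p ∈ pz y, ¬ Qh Q (h * q) p m)).card : ℝ) ≤
      2 * x * (C0 * ((Vq Q y) ^ 2 / Pq Q q)) *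
        ∏ p ∈ (pz y).filter (fun p : ℕ => p0 < p ∧ Cq Co q p h),
        (1 + ((2 * c : ℕ) : ℝ) / p) + √(x : ℝ) := by
    intro h hh
    refine (hup (Qh Q (h * q)) (perB_Qh Q c hS.per (h * q))).trans ?_
    have h2 := prod_pair_leq Q Co c p0 D hS q h y hq
    have hx : (0 : ℝ) ≤ 2 * x := by positivity
    have h3 := mul_le_mul_of_nonneg_left h2 hx
    have h4 : 2 * (x : ℝ) * (C0 * ((Vq Q y) ^ 2 / Pq Q q)) *
        ∏ p ∈ (pz y).filter (fun p : ℕ => p0 < p ∧ Cq Co q p h),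
        (1 + ((2 * c : ℕ) : ℝ) / p) = 2 * x * (C0 * ((Vq Q y) ^ 2 / Pq Q q) *
        ∏ p ∈ (pz y).filter (fun p : ℕ => p0 < p ∧ Cq Co q p h), (1 + ((2 * c : ℕ) : ℝ) / p)) := by
      ring
    rw [h4]
    linarith
  refine (Finset.sum_le_sum h1).trans ?_
  rw [Finset.sum_add_distrib, ← Finset.mul_sum, Finset.sum_const, nsmul_eq_mul]
  have h2 := havg T hT0' (Cq Co q) (coll_Cq Co p0 D hS.cR q) y E hE (by
    intro h hh
    refine le_trans (card_le_card ?_) (hE2 h hh)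
    intro p hp
    rw [mem_filter] at hp ⊢
    exact ⟨hp.1, hp.2.2.2⟩)
  have hcard : (E.card : ℝ) ≤ T := by
    have := card_le_card hE
    rw [Nat.card_Icc, Nat.add_sub_cancel] at this
    exact_mod_cast this
  have h3 : (0 : ℝ) ≤ 2 * x * (C0 * ((Vq Q y) ^ 2 / Pq Q q)) := by positivity
  have h4 := mul_le_mul_of_nonneg_left h2 h3
  have h5 : (E.card : ℝ) * √(x : ℝ) ≤ T * √(x : ℝ) := by gcongr
  calc _ ≤ 2 * x * (C0 * ((Vq Q y) ^ 2 / Pq Q q)) * (C * T) + T * √(x : ℝ) := add_le_add h4 h5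
    _ = _ := by ring

/-- pairs in the same class -/
lemma pairs_le (S : Finset ℕ) (N Y q : ℕ) (hq : 1 ≤ q) (hS : S ⊆ Ioc N (N + Y)) :
    ∑ a ∈ range q, ((S.filter (fun m => m % q = a % q)).card) ^ 2 ≤
      S.card + 2 * ∑ h ∈ Icc 1 (Y / q), (S.filter (fun m => m + h * q ∈ S)).card := by
  set PP : Finset (ℕ × ℕ) := (S ×ˢ S).filter (fun u => u.1 % q = u.2 % q) with hPP
  have e1 : ∑ a ∈ range q, ((S.filter (fun m => m % q = a % q)).card) ^ 2 = PP.card := by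
    rw [Finset.card_eq_sum_card_fiberwise (f := fun u : ℕ × ℕ => u.1 % q) (t := range q)
      (fun u _ => by
        rw [mem_coe, mem_range]
        exact Nat.mod_lt _ hq)]
    apply Finset.sum_congr rfl
    intro a ha
    rw [mem_range] at ha
    rw [Nat.mod_eq_of_lt ha, sq, ← Finset.card_product]
    congr 1
    ext u
    simp only [hPP, mem_filter, mem_product]
    constructor
    · rintro ⟨⟨h1, h2⟩, h3, h4⟩
      exact ⟨⟨⟨h1, h3⟩, by rw [h2, h4]⟩, h2⟩
    · rintro ⟨⟨⟨h1, h3⟩, h4⟩, h5⟩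
      exact ⟨⟨h1, h5⟩, h3, by rw [← h4, h5]⟩
  rw [e1]
  set P1 := PP.filter (fun u => u.1 = u.2) with hP1
  set P2 := PP.filter (fun u => u.1 < u.2) with hP2
  set P3 := PP.filter (fun u => u.2 < u.1) with hP3
  have e2 : PP.card ≤ P1.card + P2.card + P3.card := by
    have : PP ⊆ P1 ∪ P2 ∪ P3 := by
      intro u hu
      rw [mem_union, mem_union]
      rcases lt_trichotomy u.1 u.2 with h | h | h
      · exact Or.inl (Or.inr (mem_filter.2 ⟨hu, h⟩))
      · exact Or.inl (Or.inl (mem_filter.2 ⟨hu, h⟩))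
      · exact Or.inr (mem_filter.2 ⟨hu, h⟩)
    refine (card_le_card this).trans ((card_union_le _ _).trans ?_)
    have := card_union_le P1 P2
    omega
  have e3 : P1.card ≤ S.card := by
    apply Finset.card_le_card_of_injOn (fun u => u.1)
    · intro u hu
      rw [mem_coe, hP1, mem_filter, hPP, mem_filter, mem_product] at hu
      exact hu.1.1.1
    · intro u hu v hv huv
      rw [mem_coe, hP1, mem_filter] at hu hv
      have h1 : u.1 = v.1 := huv
      exact Prod.ext h1 (by rw [← hu.2, ← hv.2, h1])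
  have e4 : P3.card ≤ P2.card := by
    apply Finset.card_le_card_of_injOn (fun u => (u.2, u.1))
    · intro u hu
      rw [mem_coe, hP3, mem_filter, hPP, mem_filter, mem_product] at hu
      rw [mem_coe, hP2, mem_filter, hPP, mem_filter, mem_product]
      exact ⟨⟨⟨hu.1.1.2, hu.1.1.1⟩, hu.1.2.symm⟩, hu.2⟩
    · intro u _ v _ huv
      have h1 : (u.2, u.1) = (v.2, v.1) := huv
      rw [Prod.mk.injEq] at h1
      exact Prod.ext h1.2 h1.1
  have hP2mem : ∀ u ∈ P2, u.1 ∈ S ∧ u.2 ∈ S ∧ ∃ h, 1 ≤ h ∧ h ≤ Y / q ∧ u.2 = u.1 + h * q := by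
    intro u hu
    rw [hP2, mem_filter, hPP, mem_filter, mem_product] at hu
    obtain ⟨⟨⟨h1, h2⟩, h3⟩, h4⟩ := hu
    refine ⟨h1, h2, ?_⟩
    have h5 : q ∣ u.2 - u.1 := (Nat.modEq_iff_dvd' h4.le).1 h3
    obtain ⟨h, hh⟩ := h5
    have h6 : u.2 = u.1 + h * q := by
      rw [mul_comm]
      omega
    have h7 := hS h1
    have h8 := hS h2
    rw [mem_Ioc] at h7 h8
    refine ⟨h, ?_, ?_, h6⟩
    · by_contra hcon
      have : h = 0 := by omega
      rw [this] at h6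
      omega
    · rw [Nat.le_div_iff_mul_le hq]
      omega
  have e5 : P2.card ≤ ∑ h ∈ Icc 1 (Y / q), (S.filter (fun m => m + h * q ∈ S)).card := by
    rw [Finset.card_eq_sum_card_fiberwise (f := fun u : ℕ × ℕ => (u.2 - u.1) / q)
      (t := Icc 1 (Y / q)) (fun u hu => by
        obtain ⟨_, _, h, h1, h2, h3⟩ := hP2mem u hu
        rw [mem_coe, mem_Icc]
        have : (u.2 - u.1) / q = h := by
          rw [h3, Nat.add_sub_cancel_left, Nat.mul_div_cancel _ hq]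
        show 1 ≤ (u.2 - u.1) / q ∧ (u.2 - u.1) / q ≤ Y / q
        rw [this]
        exact ⟨h1, h2⟩)]
    apply Finset.sum_le_sum
    intro h _
    have key : ∀ u ∈ P2.filter (fun u : ℕ × ℕ => (u.2 - u.1) / q = h), u.1 ∈ S ∧ u.2 ∈ S ∧
        u.2 = u.1 + h * q := by
      intro u hu
      rw [mem_filter] at hu
      obtain ⟨h1, h2, h', _, _, h3⟩ := hP2mem u hu.1
      have : (u.2 - u.1) / q = h' := by
        rw [h3, Nat.add_sub_cancel_left, Nat.mul_div_cancel _ hq]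
      have h4 : h' = h := by rw [← this]; exact hu.2
      rw [h4] at h3
      exact ⟨h1, h2, h3⟩
    apply Finset.card_le_card_of_injOn (fun u => u.1)
    · intro u hu
      obtain ⟨h1, h2, h3⟩ := key u hu
      rw [mem_coe, mem_filter]
      refine ⟨h1, ?_⟩
      show u.1 + h * q ∈ S
      rw [← h3]
      exact h2
    · intro u hu v hv huv
      obtain ⟨_, _, h3⟩ := key u hu
      obtain ⟨_, _, h3'⟩ := key v hv
      have h1 : u.1 = v.1 := huv
      exact Prod.ext h1 (by rw [h3, h3', h1])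
  omega

/-- the final computation -/
lemma alg (t T Y W w s a S S1 S2 Cp C3 C k P : ℝ) (hT0 : 0 ≤ T) (hTt : T ≤ t) (hY : 0 ≤ Y)
    (hW0 : 0 ≤ W) (hW1 : W ≤ 1) (hw0 : 0 ≤ w) (hs0 : 0 ≤ s) (hCp : 0 ≤ Cp) (hC3 : 0 ≤ C3)
    (hC : 0 ≤ C) (hP0 : 0 < P) (hP1 : P ≤ 1) (hCT : 1 ≤ C * t * W) (hwW : w ≤ C3 * W)
    (hsW : s ≤ W ^ 2 * Y) (ha : a ≤ 2 * Y * w + s)
    (hs2 : S2 ≤ Cp * T * Y * (w ^ 2 / P) + T * s) (hs1 : S1 ≤ k ^ 2 * a) (hS : S = S1 + S2) :
    a + 2 * S ≤ ((1 + 2 * k ^ 2) * ((2 * C3 + 1) * C) + 2 * Cp * C3 ^ 2 + 2) * t * Y * W ^ 2 / P := by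
  have ht0 : 0 ≤ t := hT0.trans hTt
  have hX0 : 0 ≤ t * Y * W ^ 2 := by positivity
  have hXP : t * Y * W ^ 2 ≤ t * Y * W ^ 2 / P := by
    rw [le_div_iff₀ hP0]
    exact mul_le_of_le_one_right hX0 hP1
  set X : ℝ := t * Y * W ^ 2 / P with hX
  have ha1 : a ≤ (2 * C3 + 1) * C * X := by
    have h1 : 2 * Y * w ≤ 2 * Y * (C3 * W) := by gcongr
    have h2 : W ^ 2 * Y ≤ W * Y := by
      have : W ^ 2 ≤ W := by
        rw [sq]
        exact mul_le_of_le_one_left hW0 hW1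
      gcongr
    have h3 : a ≤ (2 * C3 + 1) * (W * Y) := by linarith
    have h4 : W * Y ≤ C * (t * Y * W ^ 2) := by
      calc W * Y = 1 * (W * Y) := (one_mul _).symm
        _ ≤ (C * t * W) * (W * Y) := by gcongr
        _ = _ := by ring
    calc a ≤ (2 * C3 + 1) * (W * Y) := h3
      _ ≤ (2 * C3 + 1) * (C * (t * Y * W ^ 2)) := by gcongr
      _ ≤ (2 * C3 + 1) * (C * X) := by gcongr
      _ = _ := by ring
  have h5 : Cp * T * Y * (w ^ 2 / P) ≤ Cp * C3 ^ 2 * X := by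
    calc Cp * T * Y * (w ^ 2 / P) ≤ Cp * t * Y * ((C3 * W) ^ 2 / P) := by gcongr
      _ = Cp * C3 ^ 2 * X := by rw [hX]; ring
  have h6 : T * s ≤ X := by
    calc T * s ≤ t * (W ^ 2 * Y) := by gcongr
      _ = t * Y * W ^ 2 := by ring
      _ ≤ X := hXP
  have h7 : S ≤ k ^ 2 * ((2 * C3 + 1) * C * X) + (Cp * C3 ^ 2 * X + X) := by
    have : k ^ 2 * a ≤ k ^ 2 * ((2 * C3 + 1) * C * X) := by gcongr
    rw [hS]
    linarith
  calc a + 2 * S ≤ (2 * C3 + 1) * C * X + 2 * (k ^ 2 * ((2 * C3 + 1) * C * X) +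
        (Cp * C3 ^ 2 * X + X)) := by linarith
    _ = _ := by rw [hX]; ring

end CEN

open CEN

open Classical in
theorem t_CEN (h : S_COL2) : S_CEN := by
  intro k d C r hk hd hC hr
  obtain ⟨c, hc⟩ : ∃ c, c = k * d := ⟨_, rfl⟩
  have hc1 : 1 ≤ c := by rw [hc]; exact Nat.mul_pos hk hd
  obtain ⟨D', hcol⟩ := h k d C hk hd hC
  rw [← hc] at hcol
  obtain ⟨K1, hK1, Cp, hCp, x0, hpair⟩ := pair_sumq c (2 * c) (c ^ 2) (2 * D' * C) hc1
  obtain ⟨R, hRdef⟩ : ∃ R, R = max K1 r + 1 := ⟨_, rfl⟩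
  have hRK : K1 ≤ R := by
    have := le_max_left K1 r
    omega
  have hRr : r ≤ R := by
    have := le_max_right K1 r
    omega
  have hR2 : 2 ≤ R := by
    have := le_max_right K1 r
    omega
  have hRR : (2 : ℝ) ≤ R := by exact_mod_cast hR2
  have hRpos : (0 : ℝ) < R := by linarith
  obtain ⟨C3, hC3, hup⟩ := Vq_upper c (2 * R) (by linarith)
  obtain ⟨c1, hc10, hlow⟩ := Vq_lower c
  have hC0 : (1 : ℝ) ≤ C := by exact_mod_cast hC
  refine ⟨(1 + 2 * (k : ℝ) ^ 2) * ((2 * C3 + 1) * C) + 2 * Cp * C3 ^ 2 + 2, by positivity, ?_⟩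
  have hXr : Tendsto (fun X : ℕ => (X : ℝ)) atTop atTop := tendsto_natCast_atTop_atTop
  have hpow2 : Tendsto (fun X : ℕ => (X : ℝ) ^ (1 / (2 * R : ℝ))) atTop atTop :=
    (tendsto_rpow_atTop (by positivity)).comp hXr
  have hlogX : Tendsto (fun X : ℕ => Real.log (X : ℝ)) atTop atTop :=
    Real.tendsto_log_atTop.comp hXr
  filter_upwards [hcol, eventually_ge_atTop (2 * c + 4),
    hpow2.eventually_ge_atTop ((x0 : ℝ) + 2 * c + 2),
    hlogX.eventually_ge_atTop (C * ((x0 : ℝ) + 2) + 1),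
    logpow_le (8 * c) (1 / c1 ^ 4) (by positivity)] with Y hY1 hY2 hY3 hY4 hY5
  intro f hf N A hA q hq hlogT hCT
  obtain ⟨hPer, E0, hE0, hE1⟩ := hY1 f hf
  have hsys : Sys f := hf.1
  have hYr : (4 : ℝ) ≤ Y := by exact_mod_cast (by omega : 4 ≤ Y)
  have hYpos : (0 : ℝ) < Y := by linarith
  have hYone : (1 : ℝ) ≤ Y := by linarith
  have hx00 : (0 : ℝ) ≤ x0 := Nat.cast_nonneg _
  have hcr : (0 : ℝ) ≤ c := Nat.cast_nonneg _
  obtain ⟨hy1, hy2, hy3, hy4⟩ := level_low R hR2 Y (by omega) (by linarith)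
  obtain ⟨y, hydef⟩ : ∃ y, y = ⌊(Y : ℝ) ^ (1 / (R : ℝ))⌋₊ := ⟨_, rfl⟩
  rw [← hydef] at hy1 hy2 hy3 hy4
  have hyup : (y : ℝ) ≤ (Y : ℝ) ^ (1 / (R : ℝ)) := by
    rw [hydef]
    exact Nat.floor_le (by positivity)
  have hyx0 : x0 ≤ y := by
    have : (x0 : ℝ) ≤ y := by linarith
    exact_mod_cast this
  have hyc : 2 * c ≤ y := by
    have : 2 * (c : ℝ) ≤ y := by linarith
    exact_mod_cast this
  have hyY : y ≤ Y := by
    have h1 : (Y : ℝ) ^ (1 / (R : ℝ)) ≤ Y := by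
      calc (Y : ℝ) ^ (1 / (R : ℝ)) ≤ (Y : ℝ) ^ (1 : ℝ) := by
            apply Real.rpow_le_rpow_of_exponent_le hYone
            rw [div_le_one hRpos]; linarith
        _ = Y := Real.rpow_one _
    exact_mod_cast hyup.trans h1
  have hyR : y ^ R ≤ Y := by
    have : ((y ^ R : ℕ) : ℝ) ≤ Y := by
      push_cast
      calc (y : ℝ) ^ R ≤ ((Y : ℝ) ^ (1 / (R : ℝ))) ^ R := pow_le_pow_left₀ (by positivity) hyup R
        _ = Y := by
          rw [← Real.rpow_natCast, ← Real.rpow_mul hYpos.le]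
          rw [one_div, inv_mul_cancel₀ hRpos.ne', Real.rpow_one]
    exact_mod_cast this
  have hyK : y ^ K1 ≤ Y := (Nat.pow_le_pow_right (by omega) hRK).trans hyR
  -- the sieve products
  obtain ⟨W, hW⟩ : ∃ W, W = V f Y := ⟨_, rfl⟩
  rw [← hW] at hCT ⊢
  have hW' : W = Vq (Q f) Y := by rw [hW, V_eq]
  have hW0 : 0 ≤ W := by rw [hW']; exact Vq_nonneg _ _
  have hW1 : W ≤ 1 := by rw [hW']; exact Vq_le_one _ _
  obtain ⟨w, hw⟩ : ∃ w, w = Vq (Qs f N) y := ⟨_, rfl⟩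
  have hw' : w = Vq (Q f) y := by rw [hw, Pool.Agent.TH464.PW.Vq_Qs f c hPer]
  have hw0 : 0 ≤ w := by rw [hw]; exact Vq_nonneg _ _
  have hlogyY : Real.log Y ≤ 2 * R * Real.log y := by
    rw [div_le_iff₀ (by positivity)] at hy2
    linarith
  have hwW : w ≤ C3 * W := by
    rw [hw', hW']
    exact hup (Q f) hPer y Y hyc hy4 hyY hlogyY
  have hadm : ∀ p : ℕ, p.Prime → nuB (Q f) p < p := fun p hp => adm f hsys p hp
  have hWlow : c1 / Real.log Y ^ (2 * c) ≤ W := by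
    rw [hW']
    exact hlow (Q f) hPer hadm Y (by omega) (by omega)
  have hlY1 : 1 ≤ Real.log Y := by
    have : 0 ≤ C * ((x0 : ℝ) + 2) := by positivity
    linarith
  have hlY0 : 0 < Real.log Y := by linarith
  obtain ⟨s, hs⟩ : ∃ s, s = √(Y : ℝ) := ⟨_, rfl⟩
  have hs0 : 0 < s := by rw [hs]; exact Real.sqrt_pos.2 hYpos
  have hss : s * s = Y := by rw [hs]; exact Real.mul_self_sqrt hYpos.le
  have hsW : s ≤ W ^ 2 * Y := by
    have h1 : 1 ≤ W ^ 2 * s := by
      have h2 : (1 : ℝ) ≤ (W ^ 2 * s) ^ 2 := by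
        have h3 : (c1 / Real.log Y ^ (2 * c)) ^ 4 * Y ≤ (W ^ 2 * s) ^ 2 := by
          calc (c1 / Real.log Y ^ (2 * c)) ^ 4 * Y ≤ W ^ 4 * Y := by
                gcongr
            _ = (W ^ 2 * s) ^ 2 := by rw [← hss]; ring
        refine le_trans ?_ h3
        have h4 : (c1 / Real.log Y ^ (2 * c)) ^ 4 = c1 ^ 4 / Real.log Y ^ (8 * c) := by
          rw [div_pow, ← pow_mul]
          congr 2
          ring
        rw [h4, div_mul_eq_mul_div, le_div_iff₀ (by positivity), one_mul]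
        rw [one_div, inv_mul_le_iff₀ (by positivity)] at hY5
        exact hY5
      have h5 : 0 ≤ W ^ 2 * s := by positivity
      by_contra hcon
      rw [not_le] at hcon
      have := pow_lt_one₀ h5 hcon two_ne_zero
      linarith
    calc s = 1 * s := (one_mul _).symm
      _ ≤ (W ^ 2 * s) * s := by gcongr
      _ = W ^ 2 * Y := by rw [mul_assoc, hss]
  -- the number of shifts
  obtain ⟨T, hT⟩ : ∃ T, T = Y / q := ⟨_, rfl⟩
  have hqr : (1 : ℝ) ≤ q := by exact_mod_cast hq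
  have hqpos : (0 : ℝ) < q := by linarith
  obtain ⟨t, ht⟩ : ∃ t : ℝ, t = (Y : ℝ) / q := ⟨_, rfl⟩
  rw [← ht] at hlogT hCT ⊢
  have hTt : (T : ℝ) ≤ t := by
    rw [hT, ht]
    exact Nat.cast_div_le
  have htT : t < T + 1 := by
    rw [ht, div_lt_iff₀ hqpos]
    have h1 : Y < (Y / q + 1) * q := by
      rw [mul_comm]
      exact Nat.lt_mul_div_succ Y hq
    rw [hT]
    exact_mod_cast h1
  have hT0 : (0 : ℝ) ≤ T := Nat.cast_nonneg T
  have hTx0' : (x0 : ℝ) + 1 ≤ T := by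
    have h1 : (C : ℝ) * (x0 + 2) ≤ C * (T + 1) := by
      have : C * t ≤ C * ((T : ℝ) + 1) := by gcongr
      linarith
    have h2 : (x0 : ℝ) + 2 ≤ T + 1 := le_of_mul_le_mul_left h1 (by linarith)
    linarith
  have hTx0 : x0 ≤ T := by
    have : (x0 : ℝ) ≤ T := by linarith
    exact_mod_cast this
  have hT1 : (1 : ℝ) ≤ T := by linarith
  have hTqY : T * q ≤ Y := by
    rw [hT]
    exact Nat.div_mul_le_self Y q
  -- the set
  obtain ⟨S, hSdef⟩ : ∃ S : Finset ℕ, S = (Ioc N (N + Y)).filter (fun m => m ∈ A) := ⟨_, rfl⟩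
  have hSsub : S ⊆ Ioc N (N + Y) := by rw [hSdef]; exact filter_subset _ _
  have hSA : ∀ m ∈ S, m ∈ A := by
    intro m hm
    rw [hSdef, mem_filter] at hm
    exact hm.2
  have hrough : ∀ m ∈ S, ∀ p ∈ pz y, ¬ Q f p m := by
    intro m hm p hp hq'
    have hm' := hSsub hm
    rw [mem_Ioc] at hm'
    obtain ⟨i, hi⟩ := hq'
    have h1 := hA m (hSA m hm) hm'.1 hm'.2 i p (mem_pz.1 hp).2 hi
    have h2 : (p : ℝ) ≤ y := by exact_mod_cast (mem_pz.1 hp).1
    have h3 : (Y : ℝ) ^ (1 / (R : ℝ)) ≤ (Y : ℝ) ^ (1 / (r : ℝ)) := by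
      apply Real.rpow_le_rpow_of_exponent_le hYone
      apply one_div_le_one_div_of_le
      · exact_mod_cast hr
      · exact_mod_cast hRr
    linarith
  have hcls : ∀ a, cls A N Y q a = (S.filter (fun m => m % q = a % q)).card := by
    intro a
    unfold cls
    rw [hSdef, Finset.filter_filter]
  have hpl := pairs_le S N Y q hq hSsub
  have hsum : ∑ a ∈ range q, (cls A N Y q a : ℝ) ^ 2 ≤ (S.card : ℝ) +
      2 * ∑ h ∈ Icc 1 T, ((S.filter (fun m => m + h * q ∈ S)).card : ℝ) := by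
    have e : ∑ a ∈ range q, (cls A N Y q a : ℝ) ^ 2 =
        ((∑ a ∈ range q, ((S.filter (fun m => m % q = a % q)).card) ^ 2 : ℕ) : ℝ) := by
      push_cast
      exact Finset.sum_congr rfl fun a _ => by rw [hcls]
    rw [e, hT]
    exact_mod_cast hpl
  refine hsum.trans ?_
  obtain ⟨hcnt, hpairs⟩ := hpair Y y hyx0 hyK (Qs f N) (CoG (Q f))
    (Pool.Agent.TH464.PW.sdata_Qs f hsys c hPer N)
  rw [← hw, ← hs] at hcnt
  -- the first moment
  obtain ⟨a, ha⟩ : ∃ a : ℝ, a = (S.card : ℝ) := ⟨_, rfl⟩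
  have ha1 : a ≤ 2 * Y * w + s := by
    refine le_trans ?_ hcnt
    rw [ha]
    have : S.card ≤ ((Icc 1 Y).filter (fun m => ∀ p ∈ pz y, ¬ Qs f N p m)).card := by
      apply Finset.card_le_card_of_injOn (fun m => m - N)
      · intro m hm
        have hm' := hSsub hm
        rw [mem_Ioc] at hm'
        rw [mem_coe, mem_filter, mem_Icc]
        refine ⟨⟨by show 1 ≤ m - N; omega, by show m - N ≤ Y; omega⟩, fun p hp hq' => ?_⟩
        apply hrough m hm p hp
        have h1 : Q f p (m - N + N) := hq'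
        rwa [Nat.sub_add_cancel hm'.1.le] at h1
      · intro m hm m' hm' hmm
        have h1 := hSsub hm
        have h2 := hSsub hm'
        rw [mem_Ioc] at h1 h2
        have h3 : m - N = m' - N := hmm
        omega
    exact_mod_cast this
  have ha0 : 0 ≤ a := by rw [ha]; exact Nat.cast_nonneg _
  rw [← ha]
  -- the pairs
  obtain ⟨F, hF⟩ : ∃ F : ℕ → ℝ, F = fun h => ((S.filter (fun m => m + h * q ∈ S)).card : ℝ) :=
    ⟨_, rfl⟩
  have hFe : ∑ h ∈ Icc 1 T, ((S.filter (fun m => m + h * q ∈ S)).card : ℝ) = ∑ h ∈ Icc 1 T, F h := by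
    rw [hF]
  rw [hFe]
  obtain ⟨E, hEdef⟩ : ∃ E : Finset ℕ, E = (Icc 1 T).filter (fun h => ¬ h * q ∈ E0) := ⟨_, rfl⟩
  have hsumF : ∑ h ∈ Finset.Icc 1 T, F h = ∑ h ∈ (Icc 1 T).filter (fun h => h * q ∈ E0), F h +
      ∑ h ∈ E, F h := by
    rw [hEdef]
    exact (Finset.sum_filter_add_sum_filter_not _ _ _).symm
  have hs1 : ∑ h ∈ (Icc 1 T).filter (fun h => h * q ∈ E0), F h ≤ (k : ℝ) ^ 2 * a := by
    have a1 : ∀ h ∈ (Icc 1 T).filter (fun h => h * q ∈ E0), F h ≤ a := by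
      intro h _
      rw [ha, hF]
      show ((S.filter (fun m => m + h * q ∈ S)).card : ℝ) ≤ _
      have := card_le_card (filter_subset (fun m => m + h * q ∈ S) S)
      exact_mod_cast this
    have a2 := Finset.sum_le_card_nsmul _ _ _ a1
    rw [nsmul_eq_mul] at a2
    refine a2.trans ?_
    have a3 : (((Icc 1 T).filter (fun h => h * q ∈ E0)).card : ℝ) ≤ (k : ℝ) ^ 2 := by
      have : ((Icc 1 T).filter (fun h => h * q ∈ E0)).card ≤ E0.card := by
        apply Finset.card_le_card_of_injOn (fun h => h * q)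
        · intro h hh
          rw [mem_coe, mem_filter] at hh
          exact hh.2
        · intro h _ h' _ hhh
          exact Nat.eq_of_mul_eq_mul_right hq hhh
      exact_mod_cast this.trans hE0
    exact mul_le_mul_of_nonneg_right a3 ha0
  have hPf : P f q = Pq (Qs f N) q := by
    unfold P Pq
    apply Finset.prod_congr rfl
    intro p _
    rw [Pool.Agent.TH464.PW.nuB_Qs f c hPer]
    have : om f p = nuB (Q f) p := by
      unfold om nuB Q
      congr
    rw [this]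
  have hadm' : ∀ p : ℕ, p.Prime → nuB (Qs f N) p < p := by
    intro p hp
    rw [Pool.Agent.TH464.PW.nuB_Qs f c hPer]
    exact hadm p hp
  have hs2 : ∑ h ∈ E, F h ≤ Cp * T * Y * (w ^ 2 / P f q) + T * s := by
    rw [hw, hs, hPf]
    refine le_trans ?_ (hpairs q hq T hTx0 E (by rw [hEdef]; exact filter_subset _ _) ?_)
    · apply Finset.sum_le_sum
      intro h hhE
      rw [hF]
      show ((S.filter (fun m => m + h * q ∈ S)).card : ℝ) ≤ _
      have : (S.filter (fun m => m + h * q ∈ S)).card ≤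
          ((Icc 1 Y).filter (fun m => ∀ p ∈ pz y, ¬ Qh (Qs f N) (h * q) p m)).card := by
        apply Finset.card_le_card_of_injOn (fun m => m - N)
        · intro m hm
          rw [mem_coe, mem_filter] at hm
          have hm' := hSsub hm.1
          rw [mem_Ioc] at hm'
          rw [mem_coe, mem_filter, mem_Icc]
          refine ⟨⟨by show 1 ≤ m - N; omega, by show m - N ≤ Y; omega⟩, fun p hp hq' => ?_⟩
          rcases hq' with hq' | hq'
          · apply hrough m hm.1 p hp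
            have h1 : Q f p (m - N + N) := hq'
            rwa [Nat.sub_add_cancel hm'.1.le] at h1
          · apply hrough (m + h * q) hm.2 p hp
            have h1 : Q f p (m - N + h * q + N) := hq'
            rwa [show m - N + h * q + N = m + h * q by omega] at h1
        · intro m hm m' hm' hmm
          rw [mem_coe, mem_filter] at hm hm'
          have h1 := hSsub hm.1
          have h2 := hSsub hm'.1
          rw [mem_Ioc] at h1 h2
          have h3 : m - N = m' - N := hmm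
          omega
      exact_mod_cast this
    · intro h hh
      rw [hEdef, mem_filter, mem_Icc] at hh
      have h1 : h * q ∈ Icc 1 Y := by
        rw [mem_Icc]
        refine ⟨Nat.mul_pos hh.1.1 hq, ?_⟩
        exact (Nat.mul_le_mul_right q hh.1.2).trans hTqY
      have h2 := hE1 y (h * q) h1 hh.2
      have h3 : (D' : ℝ) * Real.log Y ≤ 2 * D' * C * T := by
        have h4 : Real.log Y ≤ C * ((T : ℝ) + 1) := hlogT.trans (by gcongr)
        have h5 : C * ((T : ℝ) + 1) ≤ C * (2 * T) := by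
          gcongr
          linarith
        calc (D' : ℝ) * Real.log Y ≤ D' * (C * (2 * T)) := by
              gcongr
              linarith
          _ = _ := by ring
      exact_mod_cast h2.trans h3
  -- the end
  have hP0 : 0 < P f q := by rw [hPf]; exact Pq_pos _ hadm' q
  have hP1 : P f q ≤ 1 := by rw [hPf]; exact Pq_le_one _ hadm' q
  exact alg t T Y W w s a _ _ _ Cp C3 C k (P f q) hT0 hTt hYpos.le hW0 hW1 hw0 hs0.le hCp.le hC3.le
    (by linarith) hP0 hP1 hCT hwW hsW ha1 hs2 hs1 hsumF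

end Pool.Agent.N610.CH
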