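import Pool.Agent.N610.CH.Stm

set_option autoImplicit false

/-!
# Jump inequality along chains of moduli (project CH, helper610)
-/

namespace Pool.Agent.N610.CH

open Polynomial Finset Filter
open Pool.Agent.N610.JV (Jumps)
open Pool.Agent.N610.JW (SysH om V Rough)

namespace CHJ_

variable {k : ℕ} {f : Fin k → ℤ[X]}

theorem eval_mod (g : ℤ[X]) (p m n : ℕ) (h : m % p = n % p) (hd : (p : ℤ) ∣ g.eval (m : ℤ)) :
    (p : ℤ) ∣ g.eval (n : ℤ) := by
  have h1 : (m : ℤ) ≡ (n : ℤ) [ZMOD p] := by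
    have : m ≡ n [MOD p] := h
    exact (Int.natCast_modEq_iff).2 this
  have h2 : (p : ℤ) ∣ (m : ℤ) - (n : ℤ) := (Int.modEq_iff_dvd.1 h1.symm)
  have h3 : (m : ℤ) - (n : ℤ) ∣ g.eval (m : ℤ) - g.eval (n : ℤ) := g.sub_dvd_eval_sub _ _
  have h4 := dvd_sub hd (h2.trans h3)
  simpa using h4

theorem red_mod (q m : ℕ) (h : Red f q m) : Red f q (m % q) := by
  intro p hp hpq i hd
  refine h p hp hpq i (eval_mod (f i) p (m % q) m ?_ hd)
  exact Nat.mod_mod_of_dvd m hpq

theorem red_dvd (q q' m : ℕ) (hq : q ∣ q') (h : Red f q' m) : Red f q m :=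
  fun p hp hpq i => h p hp (hpq.trans hq) i

theorem om_lt {T : ℝ} {d : ℕ} (hf : SysH k d T f) (p : ℕ) (hp : p.Prime) : om f p < p := by
  classical
  obtain ⟨m, hm⟩ := hf.1.adm p hp
  unfold om
  have h1 : ((range p).filter (fun a : ℕ => ∃ i, (p : ℤ) ∣ (f i).eval (a : ℤ))) ⊆
      (range p).erase (m % p) := by
    intro a ha
    obtain ⟨ha1, i, hi⟩ := Finset.mem_filter.1 ha
    refine Finset.mem_erase.2 ⟨?_, ha1⟩
    rintro rfl
    exact hm i (eval_mod (f i) p (m % p) m (Nat.mod_mod m p) hi)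
  have h2 := Finset.card_le_card h1
  rw [Finset.card_erase_of_mem (Finset.mem_range.2 (Nat.mod_lt _ hp.pos)), Finset.card_range] at h2
  have := hp.pos
  exact lt_of_le_of_lt h2 (by omega)

theorem fac_pos {T : ℝ} {d : ℕ} (hf : SysH k d T f) (p : ℕ) (hp : p.Prime) :
    0 < 1 - (om f p : ℝ) / p := by
  have h1 : (om f p : ℝ) < p := by exact_mod_cast om_lt hf p hp
  have h2 : (0 : ℝ) < p := by exact_mod_cast hp.pos
  rw [sub_pos, div_lt_one h2]
  exact h1

theorem P_pos {T : ℝ} {d : ℕ} (hf : SysH k d T f) (q : ℕ) : 0 < P f q :=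
  Finset.prod_pos fun p hp => fac_pos hf p (Nat.prime_of_mem_primeFactors hp)

theorem V_pos {T : ℝ} {d : ℕ} (hf : SysH k d T f) (Y : ℕ) : 0 < V f Y :=
  Finset.prod_pos fun p hp => fac_pos hf p (Finset.mem_filter.1 hp).2

theorem dvd_last (q : ℕ → ℕ) (J : ℕ) (hq : ∀ j < J, q j ∣ q (j + 1)) :
    ∀ m j : ℕ, j + m = J → q j ∣ q J := by
  intro m
  induction m with
  | zero =>
    intro j hj
    rw [add_zero] at hj
    rw [hj]
  | succ m ih =>
    intro j hj
    exact (hq j (by omega)).trans (ih (j + 1) (by omega))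

/-- the elements in a class, sorted by the finer class -/
theorem cls_sum (A : Set ℕ) (N Y q Q n : ℕ) (hqQ : q ∣ Q) (hQ : 1 ≤ Q)
    (hA : ∀ m ∈ A, N < m → m ≤ N + Y → Red f Q m) :
    ∑ b ∈ (RC f Q).filter (fun b => b % q = n % q), cls A N Y Q b = cls A N Y q n := by
  classical
  unfold cls
  rw [Finset.card_eq_sum_card_fiberwise (f := fun m => m % Q)
    (t := (RC f Q).filter (fun b => b % q = n % q)) (s := (Ioc N (N + Y)).filter
      (fun m => m ∈ A ∧ m % q = n % q))]
  · refine Finset.sum_congr rfl fun b hb => ?_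
    obtain ⟨hb1, hb2⟩ := Finset.mem_filter.1 hb
    have hbQ : b < Q := Finset.mem_range.1 (Finset.mem_filter.1 hb1).1
    congr 1
    ext m
    simp only [Finset.mem_filter, Nat.mod_eq_of_lt hbQ]
    constructor
    · rintro ⟨h1, h2, h3⟩
      refine ⟨⟨h1, h2, ?_⟩, h3⟩
      rw [← Nat.mod_mod_of_dvd m hqQ, h3, hb2]
    · rintro ⟨⟨h1, h2, h3⟩, h4⟩
      exact ⟨h1, h2, h4⟩
  · intro m hm
    obtain ⟨h1, h2, h3⟩ := Finset.mem_filter.1 hm
    obtain ⟨h4, h5⟩ := Finset.mem_Ioc.1 h1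
    refine Finset.mem_coe.2 (Finset.mem_filter.2 ⟨Finset.mem_filter.2
      ⟨Finset.mem_range.2 (Nat.mod_lt _ hQ), red_mod Q m (hA m h2 h4 h5)⟩, ?_⟩)
    show m % Q % q = n % q
    rw [Nat.mod_mod_of_dvd m hqQ, h3]

end CHJ_

open CHJ_ in
theorem t_CHJ (h1 : S_MGJ) (h2 : S_CRT) (h3 : S_CEN) : S_CHJ := by
  classical
  intro k d C r hk hd hC hr
  obtain ⟨K, hK, h4⟩ := h3 k d C r hk hd hC hr
  refine ⟨4 * K, by positivity, ?_⟩
  filter_upwards [h4] with Y hY f hf N A hA J q hq hqJ hC1 hC2 hAR lam hlam M hM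
  have hPQ := P_pos hf (q J)
  have hV := V_pos hf Y
  have hQ0 : (0 : ℝ) < (q J : ℝ) := by exact_mod_cast hqJ
  have hY0 : (0 : ℝ) < Y := by
    rcases Nat.eq_zero_or_pos Y with h | h
    · exfalso
      rw [h] at hC2
      simp at hC2
      linarith
    · exact_mod_cast h
  have hdiv : ∀ j, j ≤ J → q j ∣ q J := fun j hj => dvd_last q J hq (J - j) j (by omega)
  have hpos : ∀ j, j ≤ J → 1 ≤ q j := fun j hj =>
    Nat.pos_of_dvd_of_pos (hdiv j hj) hqJ
  -- the number of the reduced classes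
  have hcard : ((RC f (q J)).card : ℝ) = q J * P f (q J) := by
    have h5 := h2 k f 1 (q J) 0 le_rfl hqJ (one_dvd _) (by
      intro p hp hp1
      exact absurd (Nat.dvd_one.1 hp1) hp.one_lt.ne')
    have h6 : (RC f (q J)).filter (fun b => b % 1 = 0 % 1) = RC f (q J) := by
      refine Finset.filter_true_of_mem fun b _ => ?_
      omega
    rw [h6] at h5
    have h7 : P f 1 = 1 := by
      unfold P
      simp
    rw [h7] at h5
    simpa using h5
  -- the martingale
  have hav : ∀ n ∈ RC f (q J), ∀ j, j ≤ J →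
      av (RC f (q J)) (fun b => b % q j) (fun b => dq f A (V f Y) N Y (q J) b) n =
        dq f A (V f Y) N Y (q j) n := by
    intro n hn j hj
    have hnred : Red f (q J) n := (Finset.mem_filter.1 hn).2
    have h5 := h2 k f (q j) (q J) n (hpos j hj) hqJ (hdiv j hj)
      (red_dvd _ _ _ (hdiv j hj) hnred)
    have h6 := cls_sum (f := f) A N Y (q j) (q J) n (hdiv j hj) hqJ hAR
    have h6' : ∑ b ∈ (RC f (q J)).filter (fun b => b % q j = n % q j),
        (cls A N Y (q J) b : ℝ) = cls A N Y (q j) n := by exact_mod_cast h6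
    have hPj := P_pos hf (q j)
    have hqj0 : (0 : ℝ) < (q j : ℝ) := by exact_mod_cast hpos j hj
    unfold av dq
    rw [← Finset.sum_div, h6']
    have h7 : (((RC f (q J)).filter (fun b => b % q j = n % q j)).card : ℝ) =
        q J * P f (q J) / (q j * P f (q j)) := by
      rw [eq_div_iff (by positivity)]
      exact h5
    rw [h7]
    field_simp
  have h5 := h1 (RC f (q J)) J (fun j b => b % q j) (fun b => dq f A (V f Y) N Y (q J) b)
    (by
      intro j hj n _ m _ hnm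
      have h6 := hq j hj
      show n % q j = m % q j
      rw [← Nat.mod_mod_of_dvd n h6, ← Nat.mod_mod_of_dvd m h6]
      exact congrArg (fun x => x % q j) hnm) lam hlam M
    (by
      intro n hn
      obtain ⟨s, t, hst, hnext⟩ := hM n hn
      refine ⟨s, t, fun i hi => ?_, hnext⟩
      obtain ⟨a1, a2, a3, a4⟩ := hst i hi
      refine ⟨a1, a2, a3, ?_⟩
      show lam ≤ |av (RC f (q J)) (fun b => b % q (t i)) (fun b => dq f A (V f Y) N Y (q J) b) n -
        av (RC f (q J)) (fun b => b % q (s i)) (fun b => dq f A (V f Y) N Y (q J) b) n|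
      rw [hav n hn (t i) a3, hav n hn (s i) (a2.le.trans a3)]
      exact a4)
  have h6 := hY f hf N A hA (q J) hqJ hC1 hC2
  have h7 : ∑ n ∈ RC f (q J), dq f A (V f Y) N Y (q J) n ^ 2 ≤ K * (RC f (q J)).card := by
    have h8 : ∑ n ∈ RC f (q J), dq f A (V f Y) N Y (q J) n ^ 2 ≤
        ∑ n ∈ range (q J), dq f A (V f Y) N Y (q J) n ^ 2 :=
      Finset.sum_le_sum_of_subset_of_nonneg (Finset.filter_subset _ _)
        (fun _ _ _ => sq_nonneg _)
    have h9 : ∑ n ∈ range (q J), dq f A (V f Y) N Y (q J) n ^ 2 =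
        (∑ n ∈ range (q J), (cls A N Y (q J) n : ℝ) ^ 2) /
          (Y * V f Y / (q J * P f (q J))) ^ 2 := by
      rw [Finset.sum_div]
      refine Finset.sum_congr rfl fun n _ => ?_
      unfold dq
      rw [div_pow]
    refine h8.trans ?_
    rw [h9, hcard, div_le_iff₀ (by positivity)]
    refine h6.trans (le_of_eq ?_)
    field_simp
  rw [le_div_iff₀ (by positivity)]
  nlinarith

end Pool.Agent.N610.CH
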