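import Pool.Agent.N610.CH.Stm
import Pool.Agent.N610.JW.COL

set_option autoImplicit false

/-!
# Project CH (helper610): all primes of the collisions (adapted from JW/COL by helper691)
-/

namespace Pool.Agent.N610.CH

open Polynomial Finset Filter
open Pool.Agent.H373R2.T7 (nuB PerB pz mem_pz)
open Pool.Agent.W123.RU (CoG card_le_log)
open Pool.Agent.W123.RU.Poly (Q Sys)
open Pool.Agent.H474R2.PG (rho ncol_not_periodic)
open Pool.Agent.W123.RU
open Pool.Agent.N610.JW (SysH)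
open Pool.Agent.N610.JW.COL

open Classical in
theorem t_COL2 : S_COL2 := by
  intro k d C0 hk hd hC
  set M0 : ℕ := 1 + (C0 + d + 1) * (2 * d) with hM0
  refine ⟨k ^ 2 * (2 * M0), ?_⟩
  filter_upwards [eventually_ge_atTop (max ((2 * d).factorial) ((d + 1) * 2 ^ d))] with Y hY
  intro f hf
  obtain ⟨hS, hdeg, hco⟩ := hf
  have hY1 : (2 * d).factorial ≤ Y := (le_max_left _ _).trans hY
  have hY2 : (d + 1) * 2 ^ d ≤ Y := (le_max_right _ _).trans hY
  have hYpos : 1 ≤ Y := (Nat.factorial_pos _).trans_le hY1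
  refine ⟨⟨fun p n => Poly.per f p n, ?_⟩, ?_⟩
  · intro p hp
    obtain ⟨m, hm⟩ := hS.adm p hp
    have h1 := Poly.nuB_le_sum f p
    have h2 : ∑ i, rho (f i) p ≤ ∑ _i : Fin k, d :=
      Finset.sum_le_sum fun i _ => (rho_le_deg (f i) p hp m (hm i)).trans (hdeg i)
    rw [sum_const, card_univ, Fintype.card_fin, smul_eq_mul] at h2
    exact h1.trans h2
  set T := Y with hTY
  have hco' : ∀ i n, |(f i).coeff n| ≤ (Y : ℤ) ^ C0 := by
    intro i n
    have := hco i n
    exact_mod_cast this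
  let E : Finset ℕ := (Icc 1 T).filter (fun h : ℕ => ∃ q : Fin k × Fin k,
    f q.1 = (f q.2).comp (X + C (h : ℤ)))
  refine ⟨E, ?_, ?_⟩
  · have h1 : E ⊆ (Finset.univ : Finset (Fin k × Fin k)).biUnion (fun q =>
        (Icc 1 T).filter (fun h : ℕ => f q.1 = (f q.2).comp (X + C (h : ℤ)))) := by
      intro h hh
      rw [mem_filter] at hh
      obtain ⟨hh1, q, hq⟩ := hh
      rw [mem_biUnion]
      exact ⟨q, mem_univ _, mem_filter.2 ⟨hh1, hq⟩⟩
    have h2 : ∀ q : Fin k × Fin k,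
        ((Icc 1 T).filter (fun h : ℕ => f q.1 = (f q.2).comp (X + C (h : ℤ)))).card ≤ 1 := by
      intro q
      rw [Finset.card_le_one]
      intro a ha b hb
      rw [mem_filter] at ha hb
      have := shift_inj (f q.1) (f q.2) (hS.deg q.2) a b ha.2 hb.2
      exact_mod_cast this
    calc E.card ≤ _ := (card_le_card h1).trans Finset.card_biUnion_le
      _ ≤ ∑ _q : Fin k × Fin k, 1 := Finset.sum_le_sum fun q _ => h2 q
      _ = k ^ 2 := by
          rw [sum_const, card_univ, Fintype.card_prod, Fintype.card_fin, smul_eq_mul, mul_one,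
            pow_two]
  · intro y h hh hE
    have hne : ∀ i j, f i ≠ (f j).comp (X + C (h : ℤ)) := by
      intro i j hij
      exact hE (mem_filter.2 ⟨hh, (i, j), hij⟩)
    rw [mem_Icc] at hh
    -- the coefficient bound
    set H : ℤ := (d + 1) * (2 ^ d * (Y : ℤ) ^ d * (Y : ℤ) ^ C0) with hHdef
    have hYz : (1 : ℤ) ≤ Y := by exact_mod_cast hYpos
    have hH1 : (Y : ℤ) ^ C0 ≤ H := by
      have a1 : (1 : ℤ) ≤ 2 ^ d := one_le_pow₀ (by norm_num)
      have a2 : (1 : ℤ) ≤ (Y : ℤ) ^ d := one_le_pow₀ hYz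
      have a3 : (0 : ℤ) ≤ (Y : ℤ) ^ C0 := by positivity
      have a4 : (1 : ℤ) ≤ 2 ^ d * (Y : ℤ) ^ d := one_le_mul_of_one_le_of_one_le a1 a2
      have a5 : (1 : ℤ) ≤ (d : ℤ) + 1 := by
        have : (0 : ℤ) ≤ d := Int.natCast_nonneg d
        linarith
      calc (Y : ℤ) ^ C0 = 1 * (1 * (Y : ℤ) ^ C0) := by ring
        _ ≤ (d + 1) * (2 ^ d * (Y : ℤ) ^ d * (Y : ℤ) ^ C0) := by
            apply mul_le_mul a5 _ (by positivity) (by positivity)
            exact mul_le_mul_of_nonneg_right a4 a3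
    have hH : 1 ≤ H := le_trans (one_le_pow₀ hYz) hH1
    have hH2 : H ≤ (Y : ℤ) ^ (C0 + d + 1) := by
      have a1 : ((d : ℤ) + 1) * 2 ^ d ≤ Y := by exact_mod_cast hY2
      calc H = (((d : ℤ) + 1) * 2 ^ d) * ((Y : ℤ) ^ d * (Y : ℤ) ^ C0) := by rw [hHdef]; ring
        _ ≤ Y * ((Y : ℤ) ^ d * (Y : ℤ) ^ C0) := mul_le_mul_of_nonneg_right a1 (by positivity)
        _ = (Y : ℤ) ^ (C0 + d + 1) := by ring
    have hres : ∀ i j, ∃ r : ℤ, r ≠ 0 ∧ |r| ≤ (2 * d).factorial * H ^ (2 * d) ∧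
        ∀ x p : ℤ, p ∣ (f i).eval x → p ∣ ((f j).comp (X + C (h : ℤ))).eval x → p ∣ r := by
      intro i j
      apply res_int (f i) ((f j).comp (X + C (h : ℤ))) (hS.deg i) _ H hH _ _ d (hdeg i)
      · rw [Pool.Agent.W149.CS.comp_natDegree]
        exact hdeg j
      · exact Pool.Agent.W149.CS.coprime_of_ne (f i) ((f j).comp (X + C (h : ℤ))) (hS.irr i)
          (Pool.Agent.W149.CS.comp_irred (f j) (hS.irr j) h) (hS.deg i)
          (by rw [Pool.Agent.W149.CS.comp_natDegree]; exact hS.deg j) (hS.lead i)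
          (by rw [Pool.Agent.W149.CS.comp_lc]; exact hS.lead j) (hne i j)
      · intro n
        exact (hco' i n).trans hH1
      · intro n
        exact coeff_shift (f j) d (hdeg j) h Y (Int.natCast_nonneg h)
          (by exact_mod_cast hh.2) hYz _ (hco' j) n
    choose r hr0 hrb hrd using hres
    have hlogY : 0 ≤ Real.log Y := Real.log_natCast_nonneg Y
    have hcard : ∀ q : Fin k × Fin k,
        (((pz y).filter (fun p : ℕ => p ∣ (r q.1 q.2).natAbs)).card : ℝ) ≤ 2 * M0 * Real.log Y := by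
      intro q
      have h1 := card_le_log ((pz y).filter (fun p : ℕ => p ∣ (r q.1 q.2).natAbs))
        (r q.1 q.2).natAbs (Int.natAbs_ne_zero.2 (hr0 _ _)) (fun p hp => by
          rw [mem_filter] at hp
          exact ⟨(mem_pz.1 hp.1).2, hp.2⟩)
      have h2 : ((r q.1 q.2).natAbs : ℤ) ≤ (Y : ℤ) ^ M0 := by
        rw [Int.natCast_natAbs]
        refine (hrb q.1 q.2).trans ?_
        have a1 : (((2 * d).factorial : ℕ) : ℤ) ≤ Y := by exact_mod_cast hY1
        have a2 : H ^ (2 * d) ≤ ((Y : ℤ) ^ (C0 + d + 1)) ^ (2 * d) :=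
          pow_le_pow_left₀ (by linarith) hH2 _
        calc (((2 * d).factorial : ℕ) : ℤ) * H ^ (2 * d)
            ≤ Y * ((Y : ℤ) ^ (C0 + d + 1)) ^ (2 * d) :=
              mul_le_mul a1 a2 (by positivity) (by positivity)
          _ = (Y : ℤ) ^ M0 := by
            rw [hM0, ← pow_mul, pow_add (Y : ℤ) 1, pow_one]
      have h3 : (((r q.1 q.2).natAbs : ℕ) : ℝ) ≤ (Y : ℝ) ^ M0 := by exact_mod_cast h2
      have h4 : (0 : ℝ) < (((r q.1 q.2).natAbs : ℕ) : ℝ) := by
        exact_mod_cast Nat.pos_of_ne_zero (Int.natAbs_ne_zero.2 (hr0 q.1 q.2))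
      have h5 := Real.log_le_log h4 h3
      rw [Real.log_pow] at h5
      have hl2 : (1 : ℝ) / 2 ≤ Real.log 2 := by
        have := Real.log_two_gt_d9
        linarith
      have hc0 : (0 : ℝ) ≤ (((pz y).filter (fun p : ℕ => p ∣ (r q.1 q.2).natAbs)).card : ℝ) :=
        Nat.cast_nonneg _
      have h6 := mul_le_mul_of_nonneg_left hl2 hc0
      have hM : (0 : ℝ) ≤ (M0 : ℝ) * Real.log Y := by positivity
      linarith
    have hsub : (pz y).filter (fun p : ℕ => CoG (Q f) p h) ⊆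
        (Finset.univ : Finset (Fin k × Fin k)).biUnion
          (fun q => (pz y).filter (fun p : ℕ => p ∣ (r q.1 q.2).natAbs)) := by
      intro p hp
      rw [mem_filter] at hp
      obtain ⟨hp1, m, ⟨i, hi⟩, ⟨j, hj⟩⟩ := hp
      rw [mem_biUnion]
      refine ⟨(i, j), mem_univ _, mem_filter.2 ⟨hp1, ?_⟩⟩
      push_cast at hj
      have h1 := hrd i j m p hi (by
        rw [eval_comp, eval_add, eval_X, eval_C]
        exact hj)
      exact Int.natCast_dvd.1 h1
    have h9 : (((pz y).filter (fun p : ℕ => CoG (Q f) p h)).card : ℝ) ≤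
        ∑ q : Fin k × Fin k, (((pz y).filter (fun p : ℕ => p ∣ (r q.1 q.2).natAbs)).card : ℝ) := by
      exact_mod_cast (card_le_card hsub).trans Finset.card_biUnion_le
    calc (((pz y).filter (fun p : ℕ => CoG (Q f) p h)).card : ℝ)
        ≤ ∑ q : Fin k × Fin k, (((pz y).filter (fun p : ℕ => p ∣ (r q.1 q.2).natAbs)).card : ℝ) := h9
      _ ≤ ∑ _q : Fin k × Fin k, 2 * M0 * Real.log Y := Finset.sum_le_sum fun q _ => hcard q
      _ = ((k ^ 2 * (2 * M0) : ℕ) : ℝ) * Real.log Y := by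
          rw [sum_const, card_univ, Fintype.card_prod, Fintype.card_fin, nsmul_eq_mul]
          push_cast
          ring

end Pool.Agent.N610.CH
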