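import Pool.Agent.N610.CH.Stm

set_option autoImplicit false

/-! Project CH: number of the reduced classes above a reduced class (helper722). -/

namespace Pool.Agent.N610.CH

open Polynomial Finset Filter
open Pool.Agent.N610.JW (om)

namespace CRT722

variable {k : ℕ} (f : Fin k → ℤ[X])

theorem dvd_eval_iff (i : Fin k) {p a b : ℕ} (h : a % p = b % p) :
    (p : ℤ) ∣ (f i).eval (a : ℤ) ↔ (p : ℤ) ∣ (f i).eval (b : ℤ) := by
  have h1 : (p : ℤ) ∣ (a : ℤ) - (b : ℤ) := by
    have h2 : (a : ℤ) % (p : ℤ) = (b : ℤ) % (p : ℤ) := by exact_mod_cast h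
    exact Int.ModEq.dvd (Int.ModEq.symm h2)
  have h3 : (p : ℤ) ∣ (f i).eval (a : ℤ) - (f i).eval (b : ℤ) :=
    h1.trans (Polynomial.sub_dvd_eval_sub _ _ _)
  constructor
  · intro h4
    have := dvd_sub h4 h3
    simpa using this
  · intro h4
    have := dvd_add h3 h4
    simpa using this

theorem red_congr {q a b : ℕ} (h : a % q = b % q) : Red f q a ↔ Red f q b := by
  have key : ∀ {a b : ℕ}, a % q = b % q → Red f q a → Red f q b := by
    intro a b h ha p hp hpq i hd
    apply ha p hp hpq i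
    apply (dvd_eval_iff f i _).2 hd
    have h1 := congrArg (fun x => x % p) h
    simpa [Nat.mod_mod_of_dvd _ hpq] using h1
  exact ⟨key h, key h.symm⟩

theorem red_mul {q0 p b : ℕ} (hp : p.Prime) :
    Red f (q0 * p) b ↔ Red f q0 b ∧ ∀ i, ¬ (p : ℤ) ∣ (f i).eval (b : ℤ) := by
  constructor
  · intro h
    exact ⟨fun r hr hrq i => h r hr (hrq.mul_right p) i, fun i => h p hp (Dvd.intro_left q0 rfl) i⟩
  · rintro ⟨h1, h2⟩ r hr hrq i
    rcases (hr.dvd_mul).1 hrq with h3 | h3
    · exact h1 r hr h3 i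
    · rw [(Nat.prime_dvd_prime_iff_eq hr hp).1 h3]
      exact h2 i

open Classical in
/-- the lifts -/
noncomputable def Sx (q n q' : ℕ) : Finset ℕ :=
  (range q').filter (fun b => Red f q' b ∧ b % q = n % q)

open Classical in
theorem card_Sx_mul (q n q0 p : ℕ) (hq0 : 1 ≤ q0) (hqq : q ∣ q0) (hp : p.Prime) :
    (Sx f q n (q0 * p)).card = ∑ c ∈ Sx f q n q0,
      ((range p).filter (fun t => ∀ i, ¬ (p : ℤ) ∣ (f i).eval ((c + q0 * t : ℕ) : ℤ))).card := by
  rw [← Finset.card_sigma]
  symm
  apply Finset.card_bij (fun (x : (_ : ℕ) × ℕ) _ => x.1 + q0 * x.2)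
  · rintro ⟨c, t⟩ hx
    simp only [Finset.mem_sigma, Sx, Finset.mem_filter, Finset.mem_range] at hx ⊢
    obtain ⟨⟨h1, h2, h3⟩, h4, h5⟩ := hx
    refine ⟨?_, ?_, ?_⟩
    · calc c + q0 * t < q0 + q0 * t := by omega
        _ = q0 * (t + 1) := by ring
        _ ≤ q0 * p := Nat.mul_le_mul_left _ h4
    · rw [red_mul f hp]
      refine ⟨?_, h5⟩
      rw [red_congr f (b := c) (by simp)]
      exact h2
    · obtain ⟨m, rfl⟩ := hqq
      rw [← h3, mul_assoc, Nat.add_mul_mod_self_left]
  · rintro ⟨c, t⟩ hx ⟨c', t'⟩ hx' h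
    simp only [Finset.mem_sigma, Sx, Finset.mem_filter, Finset.mem_range] at hx hx' h
    have h1 : c = c' := by
      have := congrArg (fun x => x % q0) h
      simp only [Nat.add_mul_mod_self_left] at this
      rwa [Nat.mod_eq_of_lt hx.1.1, Nat.mod_eq_of_lt hx'.1.1] at this
    subst h1
    have h2 : q0 * t = q0 * t' := by omega
    have h3 := Nat.eq_of_mul_eq_mul_left (by omega) h2
    rw [h3]
  · intro b hb
    simp only [Sx, Finset.mem_filter, Finset.mem_range] at hb
    obtain ⟨h1, h2, h3⟩ := hb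
    refine ⟨⟨b % q0, b / q0⟩, ?_, ?_⟩
    · have h6 := (red_mul f hp).1 h2
      simp only [Finset.mem_sigma, Sx, Finset.mem_filter, Finset.mem_range]
      refine ⟨⟨Nat.mod_lt _ (by omega), ?_, ?_⟩, ?_, ?_⟩
      · rw [red_congr f (b := b) (Nat.mod_mod _ _)]
        exact h6.1
      · rw [Nat.mod_mod_of_dvd _ hqq]; exact h3
      · exact Nat.div_lt_of_lt_mul h1
      · rw [Nat.mod_add_div]; exact h6.2
    · exact Nat.mod_add_div _ _

open Classical in
theorem fibre_of_dvd {q0 p c : ℕ} (hp : p.Prime) (hpq : p ∣ q0) (hc : Red f q0 c) :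
    ((range p).filter (fun t => ∀ i, ¬ (p : ℤ) ∣ (f i).eval ((c + q0 * t : ℕ) : ℤ))).card = p := by
  rw [Finset.filter_true_of_mem, Finset.card_range]
  intro t _ i
  rw [dvd_eval_iff f i (b := c)]
  · exact hc p hp hpq i
  · obtain ⟨m, rfl⟩ := hpq
    rw [mul_assoc, Nat.add_mul_mod_self_left]

open Classical in
theorem fibre_of_not_dvd {q0 p c : ℕ} (hp : p.Prime) (hpq : ¬ p ∣ q0) :
    ((range p).filter (fun t => ∀ i, ¬ (p : ℤ) ∣ (f i).eval ((c + q0 * t : ℕ) : ℤ))).card + om f p
      = p := by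
  have hinj : Set.InjOn (fun t => (c + q0 * t) % p) (range p : Finset ℕ) := by
    intro t ht t' ht' h
    simp only [Finset.coe_range, Set.mem_Iio] at ht ht' h
    have h1 : c + q0 * t ≡ c + q0 * t' [MOD p] := h
    have h2 : q0 * t ≡ q0 * t' [MOD p] := Nat.ModEq.add_left_cancel' c h1
    have h3 : t ≡ t' [MOD p] := Nat.ModEq.cancel_left_of_coprime
      (by rw [Nat.coprime_iff_gcd_eq_one.symm]; exact (hp.coprime_iff_not_dvd).2 hpq) h2
    have h4 : t % p = t' % p := h3
    rwa [Nat.mod_eq_of_lt ht, Nat.mod_eq_of_lt ht'] at h4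
  have himg : (range p).image (fun t => (c + q0 * t) % p) = range p := by
    apply Finset.eq_of_subset_of_card_le
    · intro x hx
      rw [Finset.mem_image] at hx
      obtain ⟨t, -, rfl⟩ := hx
      exact Finset.mem_range.2 (Nat.mod_lt _ hp.pos)
    · rw [Finset.card_image_of_injOn hinj]
  have hom : om f p = ((range p).filter
      (fun t => ∃ i, (p : ℤ) ∣ (f i).eval ((c + q0 * t : ℕ) : ℤ))).card := by
    have h1 : ((range p).filter (fun a : ℕ => ∃ i, (p : ℤ) ∣ (f i).eval (a : ℤ))) =
        ((range p).filter (fun t => ∃ i, (p : ℤ) ∣ (f i).eval ((c + q0 * t : ℕ) : ℤ))).image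
          (fun t => (c + q0 * t) % p) := by
      ext a
      simp only [Finset.mem_filter, Finset.mem_image]
      constructor
      · rintro ⟨h2, h3⟩
        rw [← himg, Finset.mem_image] at h2
        obtain ⟨t, ht, rfl⟩ := h2
        refine ⟨t, ⟨ht, ?_⟩, rfl⟩
        obtain ⟨i, hi⟩ := h3
        exact ⟨i, (dvd_eval_iff f i (by rw [Nat.mod_mod])).1 hi⟩
      · rintro ⟨t, ⟨ht, i, hi⟩, rfl⟩
        refine ⟨Finset.mem_range.2 (Nat.mod_lt _ hp.pos), i, ?_⟩
        exact (dvd_eval_iff f i (by rw [Nat.mod_mod])).2 hi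
    unfold om
    rw [h1, Finset.card_image_of_injOn]
    intro t ht t' ht' h
    apply hinj _ _ h
    · exact (Finset.mem_filter.1 ht).1
    · exact (Finset.mem_filter.1 ht').1
  rw [hom]
  have h5 := Finset.card_filter_add_card_filter_not (s := range p)
    (fun t => ∃ i, (p : ℤ) ∣ (f i).eval ((c + q0 * t : ℕ) : ℤ))
  rw [Finset.card_range] at h5
  have h6 : (range p).filter (fun t => ∀ i, ¬ (p : ℤ) ∣ (f i).eval ((c + q0 * t : ℕ) : ℤ)) =
      (range p).filter (fun t => ¬ ∃ i, (p : ℤ) ∣ (f i).eval ((c + q0 * t : ℕ) : ℤ)) := by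
    apply Finset.filter_congr
    intro t _
    push Not
    rfl
  rw [h6]
  omega

theorem main (q n : ℕ) (hq : 1 ≤ q) (hn : Red f q n) (m : ℕ) : 1 ≤ m →
    ((Sx f q n (q * m)).card : ℝ) * (q * P f q) = ((q * m : ℕ) : ℝ) * P f (q * m) := by
  induction m using induction_on_primes with
  | zero => intro h; omega
  | one =>
    intro _
    have h1 : Sx f q n (q * 1) = {n % q} := by
      ext b
      simp only [Sx, mul_one, Finset.mem_filter, Finset.mem_range, Finset.mem_singleton]
      constructor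
      · rintro ⟨h2, -, h3⟩
        rw [← h3, Nat.mod_eq_of_lt h2]
      · rintro rfl
        refine ⟨Nat.mod_lt _ (by omega), ?_, Nat.mod_mod _ _⟩
        rw [red_congr f (b := n) (Nat.mod_mod _ _)]
        exact hn
    rw [h1]
    simp
  | prime_mul p a hp ih =>
    intro hpa
    have ha : 1 ≤ a := by
      rcases Nat.eq_zero_or_pos a with h | h
      · subst h; simp at hpa
      · exact h
    have ih' := ih ha
    have hq0 : 1 ≤ q * a := Nat.mul_pos hq ha
    have hmul : q * (p * a) = (q * a) * p := by ring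
    rw [hmul, card_Sx_mul f q n (q * a) p hq0 (Dvd.intro a rfl) hp]
    have hp0 : (p : ℝ) ≠ 0 := by exact_mod_cast hp.ne_zero
    by_cases hpq : p ∣ q * a
    · have h1 : ∀ c ∈ Sx f q n (q * a), ((range p).filter
          (fun t => ∀ i, ¬ (p : ℤ) ∣ (f i).eval ((c + (q * a) * t : ℕ) : ℤ))).card = p := by
        intro c hc
        apply fibre_of_dvd f hp hpq
        simp only [Sx, Finset.mem_filter] at hc
        exact hc.2.1
      rw [Finset.sum_congr rfl h1, Finset.sum_const, smul_eq_mul]
      have h2 : P f (q * a * p) = P f (q * a) := by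
        unfold P
        rw [Nat.primeFactors_mul (by omega) hp.ne_zero, hp.primeFactors]
        congr 1
        apply Finset.union_eq_left.2
        intro x hx
        rw [Finset.mem_singleton] at hx
        subst hx
        exact Nat.mem_primeFactors.2 ⟨hp, hpq, by omega⟩
      rw [h2]
      push_cast at ih' ⊢
      linear_combination (p : ℝ) * ih'
    · have h1 : ∀ c ∈ Sx f q n (q * a), ((((range p).filter
          (fun t => ∀ i, ¬ (p : ℤ) ∣ (f i).eval ((c + (q * a) * t : ℕ) : ℤ))).card : ℕ) : ℝ) =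
            (p : ℝ) - om f p := by
        intro c _
        have := fibre_of_not_dvd f (c := c) hp hpq
        rw [eq_sub_iff_add_eq]
        exact_mod_cast this
      have h2 : P f (q * a * p) = P f (q * a) * (1 - (om f p : ℝ) / p) := by
        unfold P
        rw [Nat.primeFactors_mul (by omega) hp.ne_zero, hp.primeFactors, Finset.union_comm,
          ← Finset.insert_eq, Finset.prod_insert, mul_comm]
        intro hx
        exact hpq (Nat.mem_primeFactors.1 hx).2.1
      rw [h2]
      push_cast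
      rw [Finset.sum_congr rfl (fun c hc => by have := h1 c hc; push_cast at this ⊢; exact this),
        Finset.sum_const, nsmul_eq_mul]
      push_cast at ih' ⊢
      have h3 : (q : ℝ) * a * p * (P f (q * a) * (1 - (om f p : ℝ) / p)) =
          ((q : ℝ) * a * P f (q * a)) * (p - om f p) := by
        field_simp
      rw [h3, ← ih']
      ring

end CRT722

theorem t_CRT : S_CRT := by
  intro k f q q' n hq hq' hdvd hn
  obtain ⟨m, rfl⟩ := hdvd
  have hm : 1 ≤ m := by
    rcases Nat.eq_zero_or_pos m with h | h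
    · subst h; simp at hq'
    · exact h
  have h1 := CRT722.main f q n hq hn m hm
  have h2 : (RC f (q * m)).filter (fun b => b % q = n % q) = CRT722.Sx f q n (q * m) := by
    ext b
    simp only [RC, CRT722.Sx, Finset.mem_filter, Finset.mem_range, and_assoc]
  rw [← h2] at h1
  convert h1 using 3

end Pool.Agent.N610.CH
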