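import Pool.Agent.N610.CH.Stm

set_option autoImplicit false

/-!
# Uniform steps of a chain of moduli (project CH, helper610)
-/

namespace Pool.Agent.N610.CH

open Polynomial Finset Filter
open Pool.Agent.N610.JV (Jumps)
open Pool.Agent.N610.JW (SysH om V Rough)

/-- enumeration of a set of steps -/
theorem jumps_of_steps (a : ℕ → ℝ) (J : ℕ) (ε : ℝ) (B : Finset ℕ)
    (hB : ∀ j ∈ B, j < J ∧ ε ≤ |a (j + 1) - a j|) : Jumps a 0 J ε B.card := by
  classical
  let e := B.orderEmbOfFin rfl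
  have he : ∀ i : Fin B.card, (e i : ℕ) ∈ B := fun i => B.orderEmbOfFin_mem rfl i
  refine ⟨fun i => if h : i < B.card then e ⟨i, h⟩ else 0,
    fun i => if h : i < B.card then e ⟨i, h⟩ + 1 else 0, ?_, ?_⟩
  · intro i hi
    obtain ⟨h1, h2⟩ := hB _ (he ⟨i, hi⟩)
    simp only [dif_pos hi]
    exact ⟨Nat.zero_le _, Nat.lt_succ_self _, h1, h2⟩
  · intro i hi
    have hi' : i < B.card := by omega
    simp only [dif_pos hi, dif_pos hi']
    have hlt : e ⟨i, hi'⟩ < e ⟨i + 1, hi⟩ := e.strictMono (by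
      rw [Fin.lt_def]
      exact Nat.lt_succ_self i)
    omega

theorem t_CST (h : S_CHJ) : S_CST := by
  classical
  intro k d C r hk hd hC hr
  obtain ⟨K, hK, h1⟩ := h k d C r hk hd hC hr
  refine ⟨K, hK, ?_⟩
  filter_upwards [h1] with Y hY f hf N A hA J q hq hqJ hC1 hC2 hAR ε hε
  set Om := RC f (q J) with hOm
  set Bad := (range J).filter (fun j => ε * Om.card <
    ((Om.filter (fun n => ε ≤ |dq f A (V f Y) N Y (q (j + 1)) n -
      dq f A (V f Y) N Y (q j) n|)).card : ℝ)) with hBad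
  rcases Nat.eq_zero_or_pos Om.card with h0 | hpos
  · have hB : Bad = ∅ := by
      rw [hBad, Finset.filter_eq_empty_iff]
      intro j _ hj
      rw [Finset.card_eq_zero] at h0
      rw [h0] at hj
      simp at hj
    rw [hB, card_empty, Nat.cast_zero]
    positivity
  have h2 := hY f hf N A hA J q hq hqJ hC1 hC2 hAR ε hε
    (fun n => (Bad.filter (fun j => ε ≤ |dq f A (V f Y) N Y (q (j + 1)) n -
      dq f A (V f Y) N Y (q j) n|)).card) (by
      intro n _
      refine jumps_of_steps (fun j => dq f A (V f Y) N Y (q j) n) J ε _ ?_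
      intro j hj
      rw [mem_filter, hBad, mem_filter, mem_range] at hj
      exact ⟨hj.1.1, hj.2⟩)
  have h3 : ∑ n ∈ Om, ((Bad.filter (fun j => ε ≤ |dq f A (V f Y) N Y (q (j + 1)) n -
      dq f A (V f Y) N Y (q j) n|)).card : ℝ) =
      ∑ j ∈ Bad, ((Om.filter (fun n => ε ≤ |dq f A (V f Y) N Y (q (j + 1)) n -
        dq f A (V f Y) N Y (q j) n|)).card : ℝ) := by
    simp only [card_filter, Nat.cast_sum]
    exact sum_comm
  rw [h3] at h2
  have h4 : (Bad.card : ℝ) * (ε * Om.card) ≤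
      ∑ j ∈ Bad, ((Om.filter (fun n => ε ≤ |dq f A (V f Y) N Y (q (j + 1)) n -
        dq f A (V f Y) N Y (q j) n|)).card : ℝ) := by
    rw [← nsmul_eq_mul]
    apply card_nsmul_le_sum
    intro j hj
    rw [hBad, mem_filter] at hj
    exact hj.2.le
  have h5 : (Bad.card : ℝ) * (ε * Om.card) ≤ K * Om.card / ε ^ 2 := h4.trans h2
  have hOr : (0 : ℝ) < Om.card := by exact_mod_cast hpos
  rw [le_div_iff₀ (by positivity)] at h5 ⊢
  have h6 : (Bad.card : ℝ) * ε ^ 3 * Om.card ≤ K * Om.card := by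
    calc (Bad.card : ℝ) * ε ^ 3 * Om.card = (Bad.card : ℝ) * (ε * Om.card) * ε ^ 2 := by ring
      _ ≤ K * Om.card := h5
  exact le_of_mul_le_mul_right h6 hOr

end Pool.Agent.N610.CH
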