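import Pool.Agent.N610.CH.Stm2
import Pool.Agent.N610.JW.COR

set_option autoImplicit false

/-!
# Digits of the arguments of prime values of polynomials (CH/DIG)
-/

namespace Pool.Agent.N610.CH

namespace DIG

open Polynomial Finset Filter
open Pool.Agent.W123.RU.Poly (per1)

variable {k : ℕ} (f : Fin k → ℤ[X])

lemma mem_RC (q a : ℕ) : a ∈ RC f q ↔ a < q ∧ Red f q a := by
  classical
  unfold RC
  rw [mem_filter, mem_range]

lemma red_congr (q m m' : ℕ) (h : ∀ p : ℕ, p.Prime → p ∣ q → m % p = m' % p) (hm : Red f q m) :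
    Red f q m' := by
  intro p hp hpq i hd
  apply hm p hp hpq i
  rw [per1 (f i) p m, h p hp hpq, ← per1 (f i) p m']
  exact hd

lemma red_sub (q q' m : ℕ) (h : ∀ p : ℕ, p.Prime → p ∣ q' → p ∣ q) (hm : Red f q m) :
    Red f q' m := fun p hp hpq => hm p hp (h p hp hpq)

lemma P_one : P f 1 = 1 := by
  unfold P
  simp

/-- the number of the reduced classes -/
lemma card_RC (hCRT : S_CRT) (Q : ℕ) (hQ : 1 ≤ Q) : ((RC f Q).card : ℝ) = Q * P f Q := by
  have h := hCRT k f 1 Q 0 le_rfl hQ (one_dvd Q) (fun p hp hp1 => absurd (Nat.dvd_one.1 hp1) hp.one_lt.ne')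
  rw [P_one] at h
  have e : (RC f Q).filter (fun b => b % 1 = 0 % 1) = RC f Q := by
    apply Finset.filter_true_of_mem
    intro b _
    rw [Nat.mod_one, Nat.mod_one]
  rw [e] at h
  rw [← h]
  push_cast
  ring

/-- averages over the classes above -/
lemma avg_RC (hCRT : S_CRT) (q Q : ℕ) (hq : 1 ≤ q) (hQ : 1 ≤ Q) (hqQ : q ∣ Q) (G : ℕ → ℝ)
    (hG : ∀ n, G (n % q) = G n) :
    (∑ n ∈ RC f Q, G n) * (q * P f q) = (Q * P f Q) * ∑ n ∈ RC f q, G n := by
  have hmap : ∀ n ∈ RC f Q, n % q ∈ RC f q := by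
    intro n hn
    rw [mem_RC] at hn ⊢
    refine ⟨Nat.mod_lt _ hq, ?_⟩
    apply red_congr f q n
    · intro p _ hpq
      rw [Nat.mod_mod_of_dvd _ hpq]
    · exact red_sub f Q q n (fun p _ h => h.trans hqQ) hn.2
  rw [← Finset.sum_fiberwise_of_maps_to hmap, Finset.sum_mul, Finset.mul_sum]
  apply Finset.sum_congr rfl
  intro n' hn'
  have h1 : ∑ n ∈ (RC f Q).filter (fun n => n % q = n'), G n =
      (((RC f Q).filter (fun n => n % q = n')).card : ℝ) * G n' := by
    rw [← nsmul_eq_mul, ← Finset.sum_const]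
    apply Finset.sum_congr rfl
    intro n hn
    rw [mem_filter] at hn
    rw [← hG n, hn.2]
  rw [mem_RC] at hn'
  have h2 := hCRT k f q Q n' hq hQ hqQ hn'.2
  rw [Nat.mod_eq_of_lt hn'.1] at h2
  rw [h1, ← h2]
  ring

open Classical in
/-- the elements with a given digit -/
lemma count_c (A : Set ℕ) (N Y q b c : ℕ) (hq : 1 ≤ q) (hb : 1 ≤ b)
    (hR : ∀ m ∈ A, N < m → m ≤ N + Y → Red f (q * b) m) :
    ((Ioc N (N + Y)).filter (fun m => m ∈ A ∧ m / q % b = c)).card =
      ∑ n' ∈ (RC f (q * b)).filter (fun n' => n' / q = c), cls A N Y (q * b) n' := by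
  have hqb : 1 ≤ q * b := Nat.mul_pos hq hb
  rw [Finset.card_eq_sum_card_fiberwise (f := fun m => m % (q * b))
    (t := (RC f (q * b)).filter (fun n' => n' / q = c)) ?_]
  · apply Finset.sum_congr rfl
    intro n' hn'
    rw [mem_filter, mem_RC] at hn'
    unfold cls
    apply congrArg Finset.card
    ext m
    rw [mem_filter, mem_filter, mem_filter, Nat.mod_eq_of_lt hn'.1.1]
    constructor
    · rintro ⟨⟨h1, h2, _⟩, h3⟩
      exact ⟨h1, h2, h3⟩
    · rintro ⟨h1, h2, h3⟩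
      refine ⟨⟨h1, h2, ?_⟩, h3⟩
      rw [← Nat.mod_mul_right_div_self, h3]
      exact hn'.2
  · intro m hm
    rw [mem_coe, mem_filter, mem_Ioc] at hm
    obtain ⟨⟨h1, h2⟩, h3, h4⟩ := hm
    show m % (q * b) ∈ _
    rw [mem_coe, mem_filter, mem_RC]
    refine ⟨⟨Nat.mod_lt _ hqb, ?_⟩, ?_⟩
    · apply red_congr f (q * b) m _ _ (hR m h3 h1 h2)
      intro p _ hp
      rw [Nat.mod_mod_of_dvd _ hp]
    · rw [Nat.mod_mul_right_div_self]
      exact h4

open Classical in
/-- all elements -/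
lemma count_all (A : Set ℕ) (N Y q b c : ℕ) (hq : 1 ≤ q) (hc : c < b)
    (hpb : ∀ p : ℕ, p.Prime → p ∣ q * b → p ∣ q)
    (hR : ∀ m ∈ A, N < m → m ≤ N + Y → Red f (q * b) m) :
    ((Ioc N (N + Y)).filter (fun m => m ∈ A)).card =
      ∑ n' ∈ (RC f (q * b)).filter (fun n' => n' / q = c), cls A N Y q n' := by
  have hmod : ∀ m, (m % q + c * q) / q = c := by
    intro m
    rw [Nat.add_mul_div_right _ _ hq, Nat.div_eq_of_lt (Nat.mod_lt _ hq), zero_add]
  rw [Finset.card_eq_sum_card_fiberwise (f := fun m => m % q + c * q)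
    (t := (RC f (q * b)).filter (fun n' => n' / q = c)) ?_]
  · apply Finset.sum_congr rfl
    intro n' hn'
    rw [mem_filter, mem_RC] at hn'
    unfold cls
    apply congrArg Finset.card
    ext m
    have h5 : n' % q + c * q = n' := by
      rw [← hn'.2, mul_comm]
      exact Nat.mod_add_div n' q
    rw [mem_filter, mem_filter, mem_filter]
    constructor
    · rintro ⟨⟨h1, h2⟩, h3⟩
      refine ⟨h1, h2, ?_⟩
      omega
    · rintro ⟨h1, h2, h3⟩
      refine ⟨⟨h1, h2⟩, ?_⟩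
      omega
  · intro m hm
    rw [mem_coe, mem_filter, mem_Ioc] at hm
    obtain ⟨⟨h1, h2⟩, h3⟩ := hm
    show m % q + c * q ∈ _
    rw [mem_coe, mem_filter, mem_RC]
    refine ⟨⟨?_, ?_⟩, hmod m⟩
    · have h4 : m % q < q := Nat.mod_lt _ hq
      calc m % q + c * q < q + c * q := by omega
        _ = (c + 1) * q := by ring
        _ ≤ b * q := Nat.mul_le_mul_right q hc
        _ = q * b := mul_comm _ _
    · apply red_congr f (q * b) m _ _ (hR m h3 h1 h2)
      intro p hp hpq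
      obtain ⟨w, hw⟩ := hpb p hp hpq
      rw [Nat.add_mod, Nat.mod_mod_of_dvd _ (hpb p hp hpq)]
      have : c * q % p = 0 := by
        rw [hw]
        exact Nat.mod_eq_zero_of_dvd ⟨c * w, by ring⟩
      rw [this, add_zero, Nat.mod_mod]

open Classical in
/-- one digit position -/
lemma key (hCRT : S_CRT) (hP : ∀ q, 0 < P f q) (A : Set ℕ) (N Y b j J c : ℕ) (W : ℝ) (hb : 2 ≤ b)
    (hj : 1 ≤ j) (hjJ : j < J) (hc : c < b) (hYW : 0 < (Y : ℝ) * W)
    (hR : ∀ m ∈ A, N < m → m ≤ N + Y → Red f (b ^ J) m) :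
    |(((Ioc N (N + Y)).filter (fun m => m ∈ A ∧ m / b ^ j % b = c)).card : ℝ) -
      (((Ioc N (N + Y)).filter (fun m => m ∈ A)).card : ℝ) / b| ≤
      Y * W / (RC f (b ^ J)).card * ∑ n ∈ RC f (b ^ J),
        |dq f A W N Y (b ^ (j + 1)) n - dq f A W N Y (b ^ j) n| := by
  obtain ⟨q, hqdef⟩ : ∃ q, q = b ^ j := ⟨_, rfl⟩
  have hq' : b ^ (j + 1) = q * b := by rw [hqdef, pow_succ]
  have hb0 : 0 < b := by omega
  have hq : 1 ≤ q := by rw [hqdef]; exact Nat.pow_pos hb0
  have hpq : ∀ p : ℕ, p.Prime → p ∣ q * b → p ∣ q := by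
    intro p hp h
    rw [← hq'] at h
    have h1 := hp.dvd_of_dvd_pow h
    rw [hqdef]
    exact dvd_pow h1 (by omega)
  have hR' : ∀ m ∈ A, N < m → m ≤ N + Y → Red f (q * b) m := by
    intro m hm h1 h2
    apply red_sub f (b ^ J) _ m _ (hR m hm h1 h2)
    intro p hp h
    rw [← hq'] at h
    exact h.trans (pow_dvd_pow b (by omega))
  have hPP : P f (q * b) = P f q := by
    unfold P
    have : (q * b).primeFactors = q.primeFactors := by
      ext p
      rw [Nat.mem_primeFactors, Nat.mem_primeFactors]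
      constructor
      · rintro ⟨h1, h2, _⟩
        exact ⟨h1, hpq p h1 h2, by omega⟩
      · rintro ⟨h1, h2, _⟩
        exact ⟨h1, h2.mul_right b, by positivity⟩
    rw [this]
  rw [hq', ← hqdef]
  have e1 := count_c f A N Y q b c hq hb0 hR'
  have e2 := count_all f A N Y q b c hq hc hpq hR'
  rw [e1, e2]
  push_cast
  have hbr : (0 : ℝ) < b := by exact_mod_cast hb0
  have hqr : (0 : ℝ) < q := by exact_mod_cast hq
  have hPq := hP q
  rw [Finset.sum_div, ← Finset.sum_sub_distrib]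
  have hY0 : (Y : ℝ) ≠ 0 := by
    intro h0
    rw [h0, zero_mul] at hYW
    exact lt_irrefl _ hYW
  have hW0 : W ≠ 0 := by
    intro h0
    rw [h0, mul_zero] at hYW
    exact lt_irrefl _ hYW
  have e3 : ∀ n', (cls A N Y (q * b) n' : ℝ) - (cls A N Y q n' : ℝ) / b =
      Y * W / (q * b * P f q) * (dq f A W N Y (q * b) n' - dq f A W N Y q n') := by
    intro n'
    unfold dq
    rw [hPP]
    push_cast
    field_simp
  have hG : ∀ n, |dq f A W N Y (q * b) (n % (q * b)) - dq f A W N Y q (n % (q * b))| =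
      |dq f A W N Y (q * b) n - dq f A W N Y q n| := by
    intro n
    unfold dq cls
    rw [Nat.mod_mod, Nat.mod_mod_of_dvd n (dvd_mul_right q b)]
  have hQ1 : 1 ≤ b ^ J := Nat.pow_pos hb0
  have hqQ : q * b ∣ b ^ J := by
    rw [← hq']
    exact pow_dvd_pow b (by omega)
  have hav := avg_RC f hCRT (q * b) (b ^ J) (Nat.mul_pos hq hb0) hQ1 hqQ
    (fun n => |dq f A W N Y (q * b) n - dq f A W N Y q n|) hG
  rw [hPP, ← card_RC f hCRT (b ^ J) hQ1] at hav
  have hRpos : (0 : ℝ) < (RC f (b ^ J)).card := by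
    rw [card_RC f hCRT (b ^ J) hQ1]
    have := hP (b ^ J)
    have h1 : (0 : ℝ) < ((b ^ J : ℕ) : ℝ) := by exact_mod_cast hQ1
    positivity
  have hc0 : 0 ≤ (Y : ℝ) * W / (q * b * P f q) := by positivity
  calc |∑ n' ∈ (RC f (q * b)).filter (fun n' => n' / q = c),
        ((cls A N Y (q * b) n' : ℝ) - (cls A N Y q n' : ℝ) / b)|
      ≤ ∑ n' ∈ (RC f (q * b)).filter (fun n' => n' / q = c),
        |(cls A N Y (q * b) n' : ℝ) - (cls A N Y q n' : ℝ) / b| := Finset.abs_sum_le_sum_abs _ _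
    _ ≤ ∑ n' ∈ RC f (q * b), |(cls A N Y (q * b) n' : ℝ) - (cls A N Y q n' : ℝ) / b| :=
        Finset.sum_le_sum_of_subset_of_nonneg (filter_subset _ _) fun _ _ _ => abs_nonneg _
    _ = Y * W / (q * b * P f q) *
        ∑ n' ∈ RC f (q * b), |dq f A W N Y (q * b) n' - dq f A W N Y q n'| := by
        rw [Finset.mul_sum]
        apply Finset.sum_congr rfl
        intro n' _
        rw [e3, abs_mul, abs_of_nonneg hc0]
    _ = Y * W / (RC f (b ^ J)).card * ∑ n ∈ RC f (b ^ J),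
        |dq f A W N Y (q * b) n - dq f A W N Y q n| := by
        rw [div_mul_eq_mul_div, div_mul_eq_mul_div, div_eq_div_iff (by positivity) hRpos.ne']
        push_cast at hav
        linear_combination (-((Y : ℝ) * W)) * hav

open Classical in
/-- the estimate for an admissible system -/
theorem main (hCRT : S_CRT) (h : S_ORT) (k : ℕ) (g : Fin k → ℤ[X]) (hk : 1 ≤ k)
    (hS : Pool.Agent.W123.RU.Poly.Sys g) (b : ℕ) (hb : 2 ≤ b) (θ : ℝ) (hθ : 0 < θ) (_hθ1 : θ ≤ 1) :
    ∃ K : ℝ, 0 < K ∧ ∀ᶠ X : ℕ in atTop, ∀ Y : ℕ, (X : ℝ) ^ θ ≤ Y → Y ≤ X →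
      ∀ A : Set ℕ, (∀ m ∈ A, ∀ i, ((g i).eval (m : ℤ)).natAbs.Prime) →
        ∀ J : ℕ, (b : ℝ) ^ J * Real.log X ^ k ≤ Y → ∀ ε : ℝ, 0 < ε → ∀ Bad : Finset ℕ,
          Bad ⊆ Ico 1 J → (∀ j ∈ Bad, ∃ c < b, ε * (Y / Real.log X ^ k) <
            |(((Ioc X (X + Y)).filter (fun m => m ∈ A ∧ m / b ^ j % b = c)).card : ℝ) -
              (((Ioc X (X + Y)).filter (fun m => m ∈ A)).card : ℝ) / b|) →
                (Bad.card : ℝ) ≤ K / ε ^ 2 := by
  obtain ⟨v, Cv, hv, hCv, hVb⟩ := Pool.Agent.W123.RU.Poly.V_bounds g hS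
  rw [Fintype.card_fin] at hVb
  obtain ⟨T, hT⟩ := Pool.Agent.N610.JW.COR.coeff_bd g
  obtain ⟨c, hc, m0, hm0⟩ := Pool.Agent.N610.JW.COR.grow_all g hS.deg
  -- the constants
  set d : ℕ := ∑ i, (g i).natDegree with hd
  have hd1 : 1 ≤ d := by
    have h1 : 0 < (g ⟨0, hk⟩).natDegree := hS.deg _
    have h2 : (g ⟨0, hk⟩).natDegree ≤ d := Finset.single_le_sum (f := fun i => (g i).natDegree)
      (fun _ _ => Nat.zero_le _) (mem_univ _)
    omega
  set C : ℕ := ⌈1 / v⌉₊ + 1 with hC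
  have hC1 : 1 ≤ C := by omega
  have hCv1 : 1 / v ≤ C := by
    have := Nat.le_ceil (1 / v)
    rw [hC]; push_cast; linarith
  have hCr : (1 : ℝ) ≤ C := by exact_mod_cast hC1
  obtain ⟨K, hK, hev⟩ := h k d C 2 hk hd1 hC1 (by norm_num)
  obtain ⟨Y0, hY0⟩ := eventually_atTop.1 hev
  set B : ℝ := Cv / θ ^ k with hB
  have hBpos : 0 < B := by positivity
  refine ⟨K * B ^ 2, by positivity, ?_⟩
  have hP : ∀ q, 0 < P g q := by
    intro q
    unfold P
    apply Finset.prod_pos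
    intro p hp
    have hpp := Nat.prime_of_mem_primeFactors hp
    have hp0 : (0 : ℝ) < p := by exact_mod_cast hpp.pos
    have h1 := Pool.Agent.W123.RU.Poly.adm g hS p hpp
    have h2 : Pool.Agent.N610.JW.om g p =
        Pool.Agent.H373R2.T7.nuB (Pool.Agent.W123.RU.Poly.Q g) p := by
      unfold Pool.Agent.N610.JW.om Pool.Agent.H373R2.T7.nuB Pool.Agent.W123.RU.Poly.Q
      congr
    rw [sub_pos, div_lt_one hp0, h2]
    exact_mod_cast h1
  -- large X
  have hYl : ∀ᶠ X : ℕ in atTop, max (max (Y0 : ℝ) 3) (max T (c ^ 2 + 1)) ≤ (X : ℝ) ^ θ :=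
    ((tendsto_rpow_atTop hθ).comp tendsto_natCast_atTop_atTop).eventually_ge_atTop _
  filter_upwards [hYl, eventually_ge_atTop m0, eventually_ge_atTop 3,
    eventually_ge_atTop ⌈c * b⌉₊] with X hX1 hX2 hX3 hX4
  intro Y hY1 hY2 A hA J hJ ε hε Bad hBad1 hBad2
  have hYr := hX1.trans hY1
  simp only [max_le_iff] at hYr
  obtain ⟨⟨hYa, hYb⟩, hYc, hYd⟩ := hYr
  have hY00 : Y0 ≤ Y := by exact_mod_cast hYa
  have hY3 : 3 ≤ Y := by exact_mod_cast hYb
  have hYX : (Y : ℝ) ≤ X := by exact_mod_cast hY2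
  have hYpos : (0 : ℝ) < Y := by linarith
  have hlogY : 1 ≤ Real.log Y := by
    rw [Real.le_log_iff_exp_le (by linarith)]
    have := Real.exp_one_lt_d9
    linarith
  have hlogYX : Real.log Y ≤ Real.log X := Real.log_le_log (by linarith) hYX
  have hlogX : 1 ≤ Real.log X := hlogY.trans hlogYX
  have hlogθ : θ * Real.log X ≤ Real.log Y := by
    have hX0 : (0 : ℝ) < X := by linarith
    rw [← Real.log_rpow hX0]
    exact Real.log_le_log (by positivity) hY1
  obtain ⟨hV1, hV2⟩ := hVb Y hY3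
  rw [← Pool.Agent.N610.JW.COR.V_eq] at hV1 hV2
  set W : ℝ := Pool.Agent.N610.JW.V g Y with hW
  have hLk : 0 < Real.log Y ^ k := by positivity
  have hXk : 0 < Real.log X ^ k := by positivity
  have hWpos : 0 < W := lt_of_lt_of_le (by positivity) hV1
  have hWB : W * Real.log X ^ k ≤ B := by
    have h1 : W * Real.log X ^ k ≤ Cv / Real.log Y ^ k * Real.log X ^ k :=
      mul_le_mul_of_nonneg_right hV2 hXk.le
    refine h1.trans ?_
    rw [hB, div_mul_eq_mul_div, div_le_div_iff₀ hLk (by positivity)]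
    rw [mul_assoc]
    apply mul_le_mul_of_nonneg_left _ hCv.le
    rw [← mul_pow, mul_comm (Real.log X) θ]
    exact pow_le_pow_left₀ (by positivity) hlogθ k
  have hSysH : Pool.Agent.N610.JW.SysH k d ((Y : ℝ) ^ C) g := by
    refine ⟨hS, fun i => ?_, fun i j => ?_⟩
    · exact Finset.single_le_sum (f := fun i => (g i).natDegree) (fun _ _ => Nat.zero_le _)
        (mem_univ i)
    · refine (hT i j).trans (hYc.trans ?_)
      have : (1 : ℝ) ≤ Y := by linarith
      exact le_self_pow₀ this (by omega)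
  have hRough : Pool.Agent.N610.JW.Rough g A ((Y : ℝ) ^ (1 / ((2 : ℕ) : ℝ))) X (X + Y) := by
    intro m hm h1 _ i p hp hpd
    have h2 := hA m hm i
    have h3 : p ∣ ((g i).eval (m : ℤ)).natAbs := Int.natCast_dvd.1 hpd
    have h4 : p = ((g i).eval (m : ℤ)).natAbs := (Nat.prime_dvd_prime_iff_eq hp h2).1 h3
    have h5 := hm0 m (by omega) i
    rw [← h4] at h5
    have h6 : (X : ℝ) < m := by exact_mod_cast h1
    have h7 : (Y : ℝ) < c * p := by linarith
    rw [show (1 / ((2 : ℕ) : ℝ)) = 1 / 2 by norm_num, ← Real.sqrt_eq_rpow]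
    rw [Real.sqrt_lt' (by exact_mod_cast hp.pos)]
    have h8 : (Y : ℝ) ^ 2 < (c * p) ^ 2 := by
      apply pow_lt_pow_left₀ h7 (by linarith) (by norm_num)
    have h9 : c ^ 2 * Y < c ^ 2 * (p : ℝ) ^ 2 := by
      calc c ^ 2 * (Y : ℝ) ≤ Y * Y := by
            apply mul_le_mul_of_nonneg_right _ (by linarith)
            linarith
        _ = (Y : ℝ) ^ 2 := by ring
        _ < (c * p) ^ 2 := h8
        _ = c ^ 2 * (p : ℝ) ^ 2 := by ring
    exact lt_of_mul_lt_mul_left h9 (by positivity)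
  -- the elements of `A` are reduced
  have hRed : ∀ m ∈ A, X < m → m ≤ X + Y → Red g (b ^ J) m := by
    intro m hm h1 _ p hp hpb i hpd
    have hpb' : p ∣ b := hp.dvd_of_dvd_pow hpb
    have h2 := hA m hm i
    have h3 : p ∣ ((g i).eval (m : ℤ)).natAbs := Int.natCast_dvd.1 hpd
    have h4 : p = ((g i).eval (m : ℤ)).natAbs := (Nat.prime_dvd_prime_iff_eq hp h2).1 h3
    have h5 := hm0 m (by omega) i
    rw [← h4] at h5
    have h6 : (X : ℝ) < m := by exact_mod_cast h1
    have h7 : (p : ℝ) ≤ b := by exact_mod_cast Nat.le_of_dvd (by omega) hpb'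
    have h8 : c * (b : ℝ) ≤ X := (Nat.le_ceil _).trans (by exact_mod_cast hX4)
    have h9 : c * (p : ℝ) ≤ c * b := by gcongr
    linarith
  have hb0 : 0 < b := by omega
  have hQ1 : 1 ≤ b ^ J := Nat.pow_pos hb0
  have hQr : (0 : ℝ) < ((b ^ J : ℕ) : ℝ) := by exact_mod_cast hQ1
  have hYQ : Real.log X ^ k ≤ (Y : ℝ) / ((b ^ J : ℕ) : ℝ) := by
    rw [le_div_iff₀ hQr]
    push_cast
    linarith
  have hort := hY0 Y hY00 g hSysH X A hRough J (fun j => b ^ j)
    (fun j _ => pow_dvd_pow b (Nat.le_succ j)) hQ1 (by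
      calc Real.log Y ≤ Real.log X := hlogYX
        _ ≤ Real.log X ^ k := le_self_pow₀ hlogX (by omega)
        _ ≤ (Y : ℝ) / ((b ^ J : ℕ) : ℝ) := hYQ
        _ = 1 * ((Y : ℝ) / ((b ^ J : ℕ) : ℝ)) := (one_mul _).symm
        _ ≤ C * ((Y : ℝ) / ((b ^ J : ℕ) : ℝ)) := by gcongr) (by
      have h1 : v ≤ (Y : ℝ) / ((b ^ J : ℕ) : ℝ) * W := by
        calc v = Real.log Y ^ k * (v / Real.log Y ^ k) := by field_simp
          _ ≤ Real.log X ^ k * W := by
              apply mul_le_mul _ hV1 (by positivity) hXk.le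
              exact pow_le_pow_left₀ (by linarith) hlogYX k
          _ ≤ _ := by gcongr
      have h2 : 1 ≤ C * v := by
        rw [div_le_iff₀ hv] at hCv1
        exact hCv1
      calc (1 : ℝ) ≤ C * v := h2
        _ ≤ C * ((Y : ℝ) / ((b ^ J : ℕ) : ℝ) * W) := by gcongr
        _ = _ := by ring) hRed
  -- one bad position
  have hRpos : (0 : ℝ) < (RC g (b ^ J)).card := by
    rw [card_RC g hCRT (b ^ J) hQ1]
    have := hP (b ^ J)
    positivity
  obtain ⟨R, hRdef⟩ : ∃ R : ℝ, R = ((RC g (b ^ J)).card : ℝ) := ⟨_, rfl⟩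
  rw [← hRdef] at hRpos hort
  obtain ⟨G, hG⟩ : ∃ G : ℕ → ℕ → ℝ, G = fun j n =>
    dq g A W X Y (b ^ (j + 1)) n - dq g A W X Y (b ^ j) n := ⟨_, rfl⟩
  have hort' : ∑ j ∈ range J, ∑ n ∈ RC g (b ^ J), G j n ^ 2 ≤ K * R := by
    rw [hG]
    exact hort
  have hone : ∀ j ∈ Bad, ε ^ 2 ≤ B ^ 2 / R * ∑ n ∈ RC g (b ^ J), G j n ^ 2 := by
    intro j hj
    have hj' := hBad1 hj
    rw [mem_Ico] at hj'
    obtain ⟨e, he, hlt⟩ := hBad2 j hj
    have h1 := key g hCRT hP A X Y b j J e W hb hj'.1 hj'.2 he (by positivity) hRed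
    rw [← hRdef] at h1
    have h2 : ε * (Y / Real.log X ^ k) < Y * W / R * ∑ n ∈ RC g (b ^ J), |G j n| := by
      rw [hG]
      exact lt_of_lt_of_le hlt h1
    have hs0 : 0 ≤ ∑ n ∈ RC g (b ^ J), |G j n| := Finset.sum_nonneg fun _ _ => abs_nonneg _
    have h3 : ε ≤ B / R * ∑ n ∈ RC g (b ^ J), |G j n| := by
      have h4 : ε * (Y / Real.log X ^ k) * (Real.log X ^ k / Y) = ε := by field_simp
      have h5 : 0 < Real.log X ^ k / Y := by positivity
      calc ε = ε * (Y / Real.log X ^ k) * (Real.log X ^ k / Y) := h4.symm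
        _ ≤ Y * W / R * (∑ n ∈ RC g (b ^ J), |G j n|) * (Real.log X ^ k / Y) := by gcongr
        _ = (W * Real.log X ^ k) / R * ∑ n ∈ RC g (b ^ J), |G j n| := by
            field_simp
        _ ≤ B / R * ∑ n ∈ RC g (b ^ J), |G j n| := by gcongr
    have h6 : (∑ n ∈ RC g (b ^ J), |G j n|) ^ 2 ≤ R * ∑ n ∈ RC g (b ^ J), G j n ^ 2 := by
      have h7 := sq_sum_le_card_mul_sum_sq (s := RC g (b ^ J)) (f := fun n => |G j n|)
      simp only [sq_abs] at h7
      rw [hRdef]
      exact h7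
    calc ε ^ 2 ≤ (B / R * ∑ n ∈ RC g (b ^ J), |G j n|) ^ 2 := pow_le_pow_left₀ hε.le h3 2
      _ = (B / R) ^ 2 * (∑ n ∈ RC g (b ^ J), |G j n|) ^ 2 := by ring
      _ ≤ (B / R) ^ 2 * (R * ∑ n ∈ RC g (b ^ J), G j n ^ 2) := by gcongr
      _ = B ^ 2 / R * ∑ n ∈ RC g (b ^ J), G j n ^ 2 := by field_simp
  have hsum : (Bad.card : ℝ) * ε ^ 2 ≤ K * B ^ 2 := by
    calc (Bad.card : ℝ) * ε ^ 2 = ∑ _j ∈ Bad, ε ^ 2 := by
          rw [Finset.sum_const, nsmul_eq_mul]
      _ ≤ ∑ j ∈ Bad, B ^ 2 / R * ∑ n ∈ RC g (b ^ J), G j n ^ 2 := Finset.sum_le_sum hone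
      _ = B ^ 2 / R * ∑ j ∈ Bad, ∑ n ∈ RC g (b ^ J), G j n ^ 2 := by rw [Finset.mul_sum]
      _ ≤ B ^ 2 / R * ∑ j ∈ range J, ∑ n ∈ RC g (b ^ J), G j n ^ 2 := by
          apply mul_le_mul_of_nonneg_left _ (by positivity)
          apply Finset.sum_le_sum_of_subset_of_nonneg
          · intro j hj
            have hj' := hBad1 hj
            rw [mem_Ico] at hj'
            exact mem_range.2 hj'.2
          · intro j _ _
            exact Finset.sum_nonneg fun n _ => sq_nonneg _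
      _ ≤ B ^ 2 / R * (K * R) := by gcongr
      _ = K * B ^ 2 := by field_simp
  rw [le_div_iff₀ (by positivity)]
  exact hsum

end DIG

open Polynomial Finset Filter
open Pool.Agent.W123.RU.Poly (Sys)

theorem t_DIG (h1 : S_CRT) (h : S_ORT) : S_DIG := by
  classical
  intro k f hk hirr hdeg hne b hb θ hθ hθ1
  set g : Fin k → ℤ[X] := fun i => if 0 < (f i).leadingCoeff then f i else - f i with hg
  have hgf : ∀ i, g i = f i ∨ g i = - f i := by
    intro i
    by_cases h : 0 < (f i).leadingCoeff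
    · left; simp [hg, h]
    · right; simp [hg, h]
  have hnat : ∀ i (m : ℤ), ((g i).eval m).natAbs = ((f i).eval m).natAbs := by
    intro i m
    rcases hgf i with h | h
    · rw [h]
    · rw [h, eval_neg, Int.natAbs_neg]
  have gdeg : ∀ i, 0 < (g i).natDegree := by
    intro i
    rcases hgf i with h | h
    · rw [h]; exact hdeg i
    · rw [h, natDegree_neg]; exact hdeg i
  by_cases hadm : ∀ p : ℕ, p.Prime → ∃ m : ℕ, ∀ i, ¬ (p : ℤ) ∣ (g i).eval (m : ℤ)
  · have hS : Sys g := by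
      refine ⟨?_, gdeg, ?_, ?_, hadm⟩
      · intro i
        rcases hgf i with h | h
        · rw [h]; exact hirr i
        · rw [h]; exact (Associated.refl (f i)).neg_right.irreducible (hirr i)
      · intro i
        by_cases h : 0 < (f i).leadingCoeff
        · simp [hg, h]
        · have h0 : (f i).leadingCoeff ≠ 0 := by
            rw [Ne, leadingCoeff_eq_zero]
            exact (hirr i).ne_zero
          simp only [hg, if_neg h, leadingCoeff_neg]
          omega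
      · intro i j hij
        by_contra hc
        obtain ⟨n1, n2⟩ := hne i j hc
        rcases hgf i with h | h <;> rcases hgf j with h' | h' <;> rw [h, h'] at hij
        · exact n1 hij
        · exact n2 hij
        · apply n2; rw [← hij, neg_neg]
        · exact n1 (neg_injective hij)
    obtain ⟨K, hK, hev⟩ := DIG.main h1 h k g hk hS b hb θ hθ hθ1
    refine ⟨K, hK, ?_⟩
    filter_upwards [hev] with X hX Y hY1 hY2 A hA J hJ ε hε
    refine hX Y hY1 hY2 A ?_ J hJ ε hε _ (filter_subset _ _) ?_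
    · intro m hm i
      rw [hnat]
      exact hA m hm i
    · intro j hj
      rw [mem_filter] at hj
      obtain ⟨c, hc, hlt⟩ := hj.2
      exact ⟨c, hc, by convert hlt⟩
  · push Not at hadm
    obtain ⟨p, hp, hbad⟩ := hadm
    obtain ⟨c, hc, m0, hm0⟩ := Pool.Agent.N610.JW.COR.grow_all g gdeg
    refine ⟨1, one_pos, ?_⟩
    filter_upwards [eventually_ge_atTop (max m0 ⌈c * p⌉₊), eventually_ge_atTop 1]
      with X hX hX1 Y hY1 hY2 A hA J hJ ε hε
    have hAb : ∀ m ∈ A, m ≤ max m0 ⌈c * p⌉₊ := by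
      intro m hm
      by_contra hcon
      push Not at hcon
      obtain ⟨h1, h2⟩ := max_lt_iff.1 hcon
      obtain ⟨i, hi⟩ := hbad m
      have h3 := hA m hm i
      rw [← hnat] at h3
      have h4 : p ∣ ((g i).eval (m : ℤ)).natAbs := Int.natCast_dvd.1 hi
      have h5 : p = ((g i).eval (m : ℤ)).natAbs := (Nat.prime_dvd_prime_iff_eq hp h3).1 h4
      have h6 := hm0 m h1.le i
      rw [← h5] at h6
      have h7 := Nat.lt_of_ceil_lt h2
      linarith
    have hno : ∀ m ∈ Ioc X (X + Y), ¬ m ∈ A := by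
      intro m hm hmA
      have := hAb m hmA
      rw [mem_Ioc] at hm
      omega
    have hlog : 0 ≤ Real.log X := Real.log_nonneg (by exact_mod_cast hX1)
    rw [Finset.filter_false_of_mem]
    · rw [Finset.card_empty, Nat.cast_zero]
      positivity
    · rintro j _ ⟨c, _, hlt⟩
      rw [Finset.filter_false_of_mem (fun m hm hh => hno m hm hh.1),
        Finset.filter_false_of_mem (fun m hm hh => hno m hm hh)] at hlt
      simp only [Finset.card_empty, Nat.cast_zero, zero_div, sub_zero, abs_zero] at hlt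
      have : 0 ≤ ε * ((Y : ℝ) / Real.log X ^ k) := by positivity
      linarith

end Pool.Agent.N610.CH
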