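import Pool.Agent.N610.CH.Stm

/-!
# CH/MGJ: the jump inequality for finite martingales
-/

set_option autoImplicit false

namespace Pool.Agent.N610.CH

open Finset
open Pool.Agent.N610.JV (Jumps)

namespace MGJ_

/-- the reference value after processing the level `d` -/
noncomputable def rf (a : ℕ → ℝ) (lam : ℝ) : ℕ → ℝ
  | 0 => a 0
  | d + 1 => if lam / 2 ≤ |a (d + 1) - rf a lam d| then a (d + 1) else rf a lam d

theorem rf_pos {a : ℕ → ℝ} {lam : ℝ} {d : ℕ} (h : lam / 2 ≤ |a (d + 1) - rf a lam d|) :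
    rf a lam (d + 1) = a (d + 1) := by
  rw [rf, if_pos h]

theorem rf_neg {a : ℕ → ℝ} {lam : ℝ} {d : ℕ} (h : ¬ lam / 2 ≤ |a (d + 1) - rf a lam d|) :
    rf a lam (d + 1) = rf a lam d := by
  rw [rf, if_neg h]

theorem inv_rf (a : ℕ → ℝ) {lam : ℝ} (hl : 0 < lam) (d : ℕ) :
    |a d - rf a lam d| < lam / 2 := by
  cases d with
  | zero =>
    rw [rf, sub_self, abs_zero]
    linarith
  | succ d =>
    by_cases h : lam / 2 ≤ |a (d + 1) - rf a lam d|
    · rw [rf_pos h, sub_self, abs_zero]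
      linarith
    · rw [rf_neg h]
      exact not_le.1 h

theorem const_rf (a : ℕ → ℝ) (lam : ℝ) (e m : ℕ)
    (h : ∀ d, e ≤ d → d < e + m → ¬ lam / 2 ≤ |a (d + 1) - rf a lam d|) :
    rf a lam (e + m) = rf a lam e := by
  induction m with
  | zero => rfl
  | succ m ih =>
    rw [← Nat.add_assoc, rf_neg (h (e + m) (by omega) (by omega))]
    exact ih fun d h1 h2 => h d h1 (by omega)

theorem pair_reset (a : ℕ → ℝ) {lam : ℝ} (hl : 0 < lam) (s t : ℕ) (hst : s < t)
    (h : lam ≤ |a t - a s|) :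
    ∃ d, s ≤ d ∧ d < t ∧ lam / 2 ≤ |a (d + 1) - rf a lam d| := by
  by_contra hno
  push Not at hno
  have h1 : rf a lam t = rf a lam s := by
    have := const_rf a lam s (t - s) (fun d h1 h2 => by
      have := hno d h1 (by omega)
      exact not_le.2 this)
    rwa [show s + (t - s) = t by omega] at this
  have h2 := inv_rf a hl s
  have h3 := inv_rf a hl t
  rw [h1] at h3
  have h4 : |a t - a s| ≤ |a t - rf a lam s| + |a s - rf a lam s| := by
    have := abs_sub (a t - rf a lam s) (a s - rf a lam s)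
    rwa [sub_sub_sub_cancel_right] at this
  linarith

theorem count_resets (a : ℕ → ℝ) {lam : ℝ} (hl : 0 < lam) (J k : ℕ) (h : Jumps a 0 J lam k) :
    k ≤ ((range J).filter (fun d => lam / 2 ≤ |a (d + 1) - rf a lam d|)).card := by
  obtain ⟨s, t, h1, h2⟩ := h
  have hex : ∀ i : ℕ, ∃ d, i < k → s i ≤ d ∧ d < t i ∧
      lam / 2 ≤ |a (d + 1) - rf a lam d| := by
    intro i
    by_cases hi : i < k
    · obtain ⟨_, hst, htr, hj⟩ := h1 i hi
      obtain ⟨d, hd⟩ := pair_reset a hl (s i) (t i) hst hj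
      exact ⟨d, fun _ => hd⟩
    · exact ⟨0, fun h => absurd h hi⟩
  choose f hf using hex
  have hord : ∀ m i, i + m + 1 < k → t i ≤ s (i + m + 1) := by
    intro m
    induction m with
    | zero => exact fun i hi => h2 i hi
    | succ m ih =>
      intro i hi
      have h3 := ih i (by omega)
      have h4 := h2 (i + m + 1) (by omega)
      have h5 := (h1 (i + m + 1) (by omega)).2.1
      have h6 : i + (m + 1) + 1 = i + m + 1 + 1 := by ring
      rw [h6]
      omega
  have hlt : ∀ i i', i < i' → i' < k → f i < f i' := by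
    intro i i' hii hi'
    have h3 := hf i (by omega)
    have h4 := hf i' hi'
    have h5 := hord (i' - i - 1) i (by omega)
    rw [show i + (i' - i - 1) + 1 = i' by omega] at h5
    omega
  have hcard := Finset.card_le_card_of_injOn (s := range k)
    (t := (range J).filter (fun d => lam / 2 ≤ |a (d + 1) - rf a lam d|)) f
    (by
      intro i hi
      have hi' := Finset.mem_range.1 (Finset.mem_coe.1 hi)
      have h3 := hf i hi'
      have h4 := (h1 i hi').2.2.1
      exact Finset.mem_coe.2 (Finset.mem_filter.2 ⟨Finset.mem_range.2 (by omega), h3.2.2⟩))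
    (by
      intro i hi i' hi' he
      have h3 := Finset.mem_range.1 (Finset.mem_coe.1 hi)
      have h4 := Finset.mem_range.1 (Finset.mem_coe.1 hi')
      rcases lt_trichotomy i i' with h5 | h5 | h5
      · have := hlt i i' h5 h4
        omega
      · exact h5
      · have := hlt i' i h5 h3
        omega)
  rwa [Finset.card_range] at hcard

/-- the mean value depends on the label only -/
theorem av_congr (Ω : Finset ℕ) (c : ℕ → ℕ) (g : ℕ → ℝ) {n m : ℕ} (h : c n = c m) :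
    av Ω c g n = av Ω c g m := by
  unfold av
  rw [h]

/-- the sum of `g w` does not change when `g` is replaced by its mean values, if `w` is constant on
the classes -/
theorem key (Ω : Finset ℕ) (c : ℕ → ℕ) (g w : ℕ → ℝ)
    (hw : ∀ n ∈ Ω, ∀ m ∈ Ω, c n = c m → w n = w m) :
    ∑ n ∈ Ω, av Ω c g n * w n = ∑ n ∈ Ω, g n * w n := by
  classical
  have h1 : ∀ n ∈ Ω, av Ω c g n * w n =
      ∑ b ∈ Ω, (if c b = c n then g b * w b / ((Ω.filter (fun b' => c b' = c b)).card : ℝ) else 0) := by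
    intro n hn
    unfold av
    rw [← Finset.sum_filter, Finset.sum_div, Finset.sum_mul]
    refine Finset.sum_congr (by ext x; simp only [Finset.mem_filter]) fun b hb => ?_
    have hb' := Finset.mem_filter.1 hb
    rw [hb'.2, hw b hb'.1 n hn hb'.2, div_mul_eq_mul_div]
  rw [Finset.sum_congr rfl h1, Finset.sum_comm]
  refine Finset.sum_congr rfl fun b hb => ?_
  have h2 : ∀ n ∈ Ω, (if c b = c n then g b * w b /
      ((Ω.filter (fun b' => c b' = c b)).card : ℝ) else 0) =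
      (if c n = c b then g b * w b / ((Ω.filter (fun b' => c b' = c b)).card : ℝ) else 0) := by
    intro n _
    simp only [eq_comm]
  rw [Finset.sum_congr rfl h2, ← Finset.sum_filter, Finset.sum_const, nsmul_eq_mul]
  have h3 : ((Ω.filter (fun b' => c b' = c b)).card : ℝ) ≠ 0 := by
    have : b ∈ Ω.filter (fun b' => c b' = c b) := Finset.mem_filter.2 ⟨hb, rfl⟩
    exact_mod_cast (Finset.card_pos.2 ⟨b, this⟩).ne'
  field_simp

/-- the reference value depends on the label only -/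
theorem dep (Ω : Finset ℕ) (J : ℕ) (c : ℕ → ℕ → ℕ) (g : ℕ → ℝ)
    (hc : ∀ j < J, ∀ n ∈ Ω, ∀ m ∈ Ω, c (j + 1) n = c (j + 1) m → c j n = c j m) (lam : ℝ) (d : ℕ)
    (hd : d ≤ J) : ∀ n ∈ Ω, ∀ m ∈ Ω, c d n = c d m →
    rf (fun j => av Ω (c j) g n) lam d = rf (fun j => av Ω (c j) g m) lam d := by
  induction d with
  | zero =>
    intro n _ m _ h
    exact av_congr Ω (c 0) g h
  | succ d ih =>
    intro n hn m hm h
    have h1 := ih (by omega) n hn m hm (hc d (by omega) n hn m hm h)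
    have h2 : av Ω (c (d + 1)) g n = av Ω (c (d + 1)) g m := av_congr Ω (c (d + 1)) g h
    rw [rf, rf, h1, h2]

theorem step (Ω : Finset ℕ) (J : ℕ) (c : ℕ → ℕ → ℕ) (g : ℕ → ℝ)
    (hc : ∀ j < J, ∀ n ∈ Ω, ∀ m ∈ Ω, c (j + 1) n = c (j + 1) m → c j n = c j m) (lam : ℝ) (d : ℕ)
    (hd : d < J) :
    ∑ n ∈ Ω, (if lam / 2 ≤ |av Ω (c (d + 1)) g n - rf (fun j => av Ω (c j) g n) lam d| then
          (av Ω (c (d + 1)) g n - rf (fun j => av Ω (c j) g n) lam d) ^ 2 else 0) =
      ∑ n ∈ Ω, (g n - rf (fun j => av Ω (c j) g n) lam d) ^ 2 -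
        ∑ n ∈ Ω, (g n - rf (fun j => av Ω (c j) g n) lam (d + 1)) ^ 2 := by
  set r : ℕ → ℝ := fun n => rf (fun j => av Ω (c j) g n) lam d with hr
  set r' : ℕ → ℝ := fun n => rf (fun j => av Ω (c j) g n) lam (d + 1) with hr'
  have hW : ∑ n ∈ Ω, av Ω (c (d + 1)) g n * (2 * (r' n - r n)) =
      ∑ n ∈ Ω, g n * (2 * (r' n - r n)) := by
    apply key Ω (c (d + 1)) g
    intro n hn m hm h
    have h1 : r n = r m := dep Ω J c g hc lam d (by omega) n hn m hm
      (hc d hd n hn m hm h)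
    have h2 : r' n = r' m := dep Ω J c g hc lam (d + 1) (by omega) n hn m hm h
    simp only [h1, h2]
  rw [← Finset.sum_sub_distrib]
  have h2 : ∀ n ∈ Ω, (g n - r n) ^ 2 - (g n - r' n) ^ 2 =
      g n * (2 * (r' n - r n)) + (r n ^ 2 - r' n ^ 2) := fun n _ => by ring
  rw [Finset.sum_congr rfl h2, Finset.sum_add_distrib, ← hW, ← Finset.sum_add_distrib]
  refine Finset.sum_congr rfl fun n _ => ?_
  have h3 : r' n = if lam / 2 ≤ |av Ω (c (d + 1)) g n - r n| then av Ω (c (d + 1)) g n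
    else r n := rfl
  by_cases h : lam / 2 ≤ |av Ω (c (d + 1)) g n - r n|
  · rw [if_pos h, h3, if_pos h]
    ring
  · rw [if_neg h, h3, if_neg h]
    ring

theorem start (Ω : Finset ℕ) (c : ℕ → ℕ) (g : ℕ → ℝ) :
    ∑ n ∈ Ω, (g n - av Ω c g n) ^ 2 ≤ ∑ n ∈ Ω, g n ^ 2 := by
  have h1 : ∑ n ∈ Ω, av Ω c g n * av Ω c g n = ∑ n ∈ Ω, g n * av Ω c g n :=
    key Ω c g (av Ω c g) fun n _ m _ h => av_congr Ω c g h
  have h2 : ∑ n ∈ Ω, (g n - av Ω c g n) ^ 2 =
      ∑ n ∈ Ω, g n ^ 2 - 2 * ∑ n ∈ Ω, g n * av Ω c g n + ∑ n ∈ Ω, av Ω c g n * av Ω c g n := by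
    rw [Finset.mul_sum, ← Finset.sum_sub_distrib, ← Finset.sum_add_distrib]
    exact Finset.sum_congr rfl fun n _ => by ring
  have h3 : 0 ≤ ∑ n ∈ Ω, av Ω c g n * av Ω c g n :=
    Finset.sum_nonneg fun n _ => mul_self_nonneg _
  rw [h2, ← h1]
  linarith

end MGJ_

open MGJ_

theorem t_MGJ : S_MGJ := by
  intro Ω J c g hc lam hl M hM
  have h1 : ∀ n ∈ Ω, (M n : ℝ) ≤ ∑ d ∈ range J,
      (if lam / 2 ≤ |av Ω (c (d + 1)) g n - rf (fun j => av Ω (c j) g n) lam d| then (1 : ℝ)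
        else 0) := by
    intro n hn
    have h2 := count_resets (fun j => av Ω (c j) g n) hl J (M n) (hM n hn)
    rw [Finset.sum_boole]
    exact_mod_cast h2
  have h2 : lam ^ 2 / 4 * ∑ n ∈ Ω, (M n : ℝ) ≤
      ∑ d ∈ range J, ∑ n ∈ Ω, (if lam / 2 ≤ |av Ω (c (d + 1)) g n -
        rf (fun j => av Ω (c j) g n) lam d| then
          (av Ω (c (d + 1)) g n - rf (fun j => av Ω (c j) g n) lam d) ^ 2 else 0) := by
    rw [Finset.sum_comm, Finset.mul_sum]
    refine Finset.sum_le_sum fun n hn => ?_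
    refine (mul_le_mul_of_nonneg_left (h1 n hn) (by positivity)).trans ?_
    rw [Finset.mul_sum]
    refine Finset.sum_le_sum fun d _ => ?_
    by_cases h : lam / 2 ≤ |av Ω (c (d + 1)) g n - rf (fun j => av Ω (c j) g n) lam d|
    · rw [if_pos h, if_pos h, mul_one, ← sq_abs (av Ω (c (d + 1)) g n - _)]
      nlinarith
    · rw [if_neg h, if_neg h, mul_zero]
  have h3 : ∀ d ∈ range J, ∑ n ∈ Ω, (if lam / 2 ≤ |av Ω (c (d + 1)) g n -
        rf (fun j => av Ω (c j) g n) lam d| then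
          (av Ω (c (d + 1)) g n - rf (fun j => av Ω (c j) g n) lam d) ^ 2 else 0) =
      (fun d => ∑ n ∈ Ω, (g n - rf (fun j => av Ω (c j) g n) lam d) ^ 2) d -
      (fun d => ∑ n ∈ Ω, (g n - rf (fun j => av Ω (c j) g n) lam d) ^ 2) (d + 1) := by
    intro d hd
    exact step Ω J c g hc lam d (Finset.mem_range.1 hd)
  rw [Finset.sum_congr rfl h3, Finset.sum_range_sub'] at h2
  have h4 := start Ω (c 0) g
  have h5 : 0 ≤ ∑ n ∈ Ω, (g n - rf (fun j => av Ω (c j) g n) lam J) ^ 2 :=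
    Finset.sum_nonneg fun n _ => sq_nonneg _
  have h6 : ∑ n ∈ Ω, (g n - rf (fun j => av Ω (c j) g n) lam 0) ^ 2 =
      ∑ n ∈ Ω, (g n - av Ω (c 0) g n) ^ 2 := rfl
  simp only [h6] at h2
  linarith

end Pool.Agent.N610.CH
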