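import Pool.Agent.N610.CH.Stm2
import Pool.Agent.N610.CH.MGJ

/-!
# CH/ORT: the sum of the squares of all steps of a chain of moduli (helper14)
-/

set_option autoImplicit false

namespace Pool.Agent.N610.CH

open Polynomial Finset Filter
open Pool.Agent.N610.JW (SysH om V Rough)

namespace ORT_

theorem red_of_dvd {k : ℕ} {f : Fin k → ℤ[X]} {q q' a : ℕ} (h : q ∣ q') (ha : Red f q' a) :
    Red f q a :=
  fun p hp hpq i => ha p hp (hpq.trans h) i

theorem red_congr {k : ℕ} {f : Fin k → ℤ[X]} {q a b : ℕ} (h : a % q = b % q) (ha : Red f q a) :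
    Red f q b := by
  intro p hp hpq i hdvd
  apply ha p hp hpq i
  have h1 : (q : ℤ) ∣ (b : ℤ) - (a : ℤ) := (Nat.modEq_iff_dvd (n := q) (a := a) (b := b)).1 h
  have h2 : (p : ℤ) ∣ (b : ℤ) - (a : ℤ) := (Int.natCast_dvd_natCast.2 hpq).trans h1
  have h3 : (p : ℤ) ∣ (f i).eval (b : ℤ) - (f i).eval (a : ℤ) :=
    h2.trans (Polynomial.sub_dvd_eval_sub _ _ _)
  have h4 := dvd_sub hdvd h3
  rwa [sub_sub_cancel] at h4

open Classical in
theorem cls_sum {k : ℕ} (f : Fin k → ℤ[X]) (A : Set ℕ) (N Y q Q n : ℕ) (hqQ : q ∣ Q)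
    (hQ : 1 ≤ Q) (hA : ∀ m ∈ A, N < m → m ≤ N + Y → Red f Q m) :
    ∑ b ∈ (RC f Q).filter (fun b => b % q = n % q), (cls A N Y Q b : ℝ) = cls A N Y q n := by
  have h1 : cls A N Y q n = ∑ b ∈ (RC f Q).filter (fun b => b % q = n % q),
      cls A N Y Q b := by
    unfold cls
    rw [Finset.card_eq_sum_card_fiberwise (f := fun m => m % Q)
      (t := (RC f Q).filter (fun b => b % q = n % q))]
    · refine Finset.sum_congr rfl fun b hb => ?_
      rw [mem_filter, RC, mem_filter, mem_range] at hb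
      obtain ⟨⟨hbQ, -⟩, hbq⟩ := hb
      congr 1
      ext m
      simp only [mem_filter]
      constructor
      · rintro ⟨⟨h2, h3, -⟩, h5⟩
        exact ⟨h2, h3, by rw [h5, Nat.mod_eq_of_lt hbQ]⟩
      · rintro ⟨h2, h3, h4⟩
        rw [Nat.mod_eq_of_lt hbQ] at h4
        refine ⟨⟨h2, h3, ?_⟩, h4⟩
        rw [← hbq, ← h4, Nat.mod_mod_of_dvd _ hqQ]
    · intro m hm
      rw [mem_coe, mem_filter, mem_Ioc] at hm
      obtain ⟨h2, h3, h4⟩ := hm
      rw [mem_coe, mem_filter, RC, mem_filter, mem_range]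
      refine ⟨⟨Nat.mod_lt _ hQ, ?_⟩, ?_⟩
      · exact red_congr (by rw [Nat.mod_mod]) (hA m h3 h2.1 h2.2)
      · rw [Nat.mod_mod_of_dvd _ hqQ, h4]
  rw [h1]
  push_cast
  rfl

theorem dq_eq {k : ℕ} (f : Fin k → ℤ[X]) (A : Set ℕ) (v : ℝ) (N Y q n : ℕ) :
    dq f A v N Y q n = (cls A N Y q n : ℝ) * (q * P f q / (Y * v)) := by
  unfold dq
  rw [div_div_eq_mul_div, mul_div_assoc]

open Classical in
theorem av_dq (h2 : S_CRT) {k : ℕ} (f : Fin k → ℤ[X]) (A : Set ℕ) (v : ℝ) (N Y q Q n : ℕ)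
    (hqQ : q ∣ Q) (hQ : 1 ≤ Q) (hA : ∀ m ∈ A, N < m → m ≤ N + Y → Red f Q m) (hn : n ∈ RC f Q) :
    av (RC f Q) (fun b => b % q) (fun b => dq f A v N Y Q b) n = dq f A v N Y q n := by
  have hq : 1 ≤ q := Nat.pos_of_dvd_of_pos hqQ hQ
  have hn' := hn
  rw [RC, mem_filter, mem_range] at hn'
  have h3 := h2 k f q Q n hq hQ hqQ (red_of_dvd hqQ hn'.2)
  have h4 : (0 : ℝ) < (((RC f Q).filter (fun b => b % q = n % q)).card : ℝ) := by
    have : n ∈ (RC f Q).filter (fun b => b % q = n % q) := mem_filter.2 ⟨hn, rfl⟩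
    exact_mod_cast card_pos.2 ⟨n, this⟩
  have h5 : av (RC f Q) (fun b => b % q) (fun b => dq f A v N Y Q b) n =
      (∑ b ∈ (RC f Q).filter (fun b => b % q = n % q), dq f A v N Y Q b) /
        (((RC f Q).filter (fun b => b % q = n % q)).card : ℝ) := by
    unfold av
    congr!
  rw [h5]
  have h6 : ∑ b ∈ (RC f Q).filter (fun b => b % q = n % q), dq f A v N Y Q b =
      (cls A N Y q n : ℝ) * (Q * P f Q / (Y * v)) := by
    rw [← cls_sum f A N Y q Q n hqQ hQ hA, Finset.sum_mul]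
    exact Finset.sum_congr rfl fun b _ => dq_eq f A v N Y Q b
  rw [h6, dq_eq, ← h3]
  field_simp

theorem diff_sq (Ω : Finset ℕ) (c c' : ℕ → ℕ) (g : ℕ → ℝ)
    (hc : ∀ n ∈ Ω, ∀ m ∈ Ω, c' n = c' m → c n = c m) :
    ∑ n ∈ Ω, (av Ω c' g n - av Ω c g n) ^ 2 =
      ∑ n ∈ Ω, av Ω c' g n ^ 2 - ∑ n ∈ Ω, av Ω c g n ^ 2 := by
  have h1 : ∑ n ∈ Ω, av Ω c' g n * av Ω c g n = ∑ n ∈ Ω, g n * av Ω c g n :=
    MGJ_.key Ω c' g (av Ω c g) fun n hn m hm h => MGJ_.av_congr Ω c g (hc n hn m hm h)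
  have h2 : ∑ n ∈ Ω, av Ω c g n * av Ω c g n = ∑ n ∈ Ω, g n * av Ω c g n :=
    MGJ_.key Ω c g (av Ω c g) fun n _ m _ h => MGJ_.av_congr Ω c g h
  have h3 : ∑ n ∈ Ω, (av Ω c' g n - av Ω c g n) ^ 2 =
      ∑ n ∈ Ω, av Ω c' g n ^ 2 - 2 * ∑ n ∈ Ω, av Ω c' g n * av Ω c g n +
        ∑ n ∈ Ω, av Ω c g n * av Ω c g n := by
    rw [Finset.mul_sum, ← Finset.sum_sub_distrib, ← Finset.sum_add_distrib]
    exact Finset.sum_congr rfl fun n _ => by ring
  have h4 : ∑ n ∈ Ω, av Ω c g n ^ 2 = ∑ n ∈ Ω, av Ω c g n * av Ω c g n :=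
    Finset.sum_congr rfl fun n _ => by ring
  rw [h3, h4, h1, h2]
  ring

end ORT_

open ORT_

theorem t_ORT (h2 : S_CRT) (h3 : S_CEN) : S_ORT := by
  classical
  intro k d C r hk hd hC hr
  obtain ⟨K, hK, h3⟩ := h3 k d C r hk hd hC hr
  refine ⟨K, hK, ?_⟩
  filter_upwards [h3] with Y hY
  intro f hf N A hR J q hq hqJ hlog hV hA
  obtain ⟨v, hv⟩ : ∃ v, v = V f Y := ⟨_, rfl⟩
  rw [← hv] at hV ⊢
  have hdvd : ∀ j ≤ J, q j ∣ q J := by
    intro j hj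
    obtain ⟨m, rfl⟩ := Nat.exists_eq_add_of_le hj
    clear hj hqJ hlog hV hA
    induction m with
    | zero => exact dvd_refl _
    | succ m ih =>
      have h5 := ih (fun i hi => hq i (by omega))
      exact h5.trans (hq (j + m) (by omega))
  rcases (RC f (q J)).eq_empty_or_nonempty with he | hne
  · rw [he]
    simp
  have hcard : ((RC f (q J)).card : ℝ) = (q J : ℝ) * P f (q J) := by
    have h5 := h2 k f 1 (q J) 0 le_rfl hqJ (one_dvd _) (by
      intro p hp hp1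
      exact absurd (Nat.dvd_one.1 hp1) hp.one_lt.ne')
    have h6 : P f 1 = 1 := by simp [P]
    have h7 : (RC f (q J)).filter (fun b => b % 1 = 0 % 1) = RC f (q J) := by
      apply Finset.filter_true_of_mem
      intro b _
      rw [Nat.mod_one, Nat.mod_one]
    rw [h6, h7] at h5
    push_cast at h5
    linarith
  have hcp : (0 : ℝ) < ((RC f (q J)).card : ℝ) := by exact_mod_cast card_pos.2 hne
  have hqp : (0 : ℝ) < (q J : ℝ) := by exact_mod_cast hqJ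
  have hP : 0 < P f (q J) := by
    rw [hcard] at hcp
    exact (pos_iff_pos_of_mul_pos hcp).1 hqp
  obtain ⟨g, hg⟩ : ∃ g : ℕ → ℝ, g = fun b => dq f A v N Y (q J) b := ⟨_, rfl⟩
  obtain ⟨c, hc⟩ : ∃ c : ℕ → ℕ → ℕ, c = fun j b => b % q j := ⟨_, rfl⟩
  obtain ⟨Om, hOm⟩ : ∃ Om : Finset ℕ, Om = RC f (q J) := ⟨_, rfl⟩
  have hav : ∀ j ≤ J, ∀ n ∈ Om, dq f A v N Y (q j) n = av Om (c j) g n := by
    intro j hj n hn
    rw [hOm] at hn ⊢
    rw [hc, hg]
    exact (av_dq h2 f A v N Y (q j) (q J) n (hdvd j hj) hqJ hA hn).symm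
  have hsum : ∑ j ∈ range J, ∑ n ∈ Om,
      (dq f A v N Y (q (j + 1)) n - dq f A v N Y (q j) n) ^ 2 =
      ∑ n ∈ Om, av Om (c J) g n ^ 2 - ∑ n ∈ Om, av Om (c 0) g n ^ 2 := by
    rw [← Finset.sum_range_sub (fun j => ∑ n ∈ Om, av Om (c j) g n ^ 2)]
    refine Finset.sum_congr rfl fun j hj => ?_
    rw [mem_range] at hj
    rw [← diff_sq Om (c j) (c (j + 1)) g]
    · refine Finset.sum_congr rfl fun n hn => ?_
      rw [hav j hj.le n hn, hav (j + 1) hj n hn]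
    · intro n _ m _ h
      rw [hc] at h ⊢
      have h5 : n % q (j + 1) = m % q (j + 1) := h
      show n % q j = m % q j
      rw [← Nat.mod_mod_of_dvd n (hq j hj), ← Nat.mod_mod_of_dvd m (hq j hj), h5]
  rw [← hOm, hsum]
  have h0 : 0 ≤ ∑ n ∈ Om, av Om (c 0) g n ^ 2 := Finset.sum_nonneg fun n _ => sq_nonneg _
  have hJ : ∑ n ∈ Om, av Om (c J) g n ^ 2 =
      (∑ n ∈ Om, (cls A N Y (q J) n : ℝ) ^ 2) * (q J * P f (q J) / (Y * v)) ^ 2 := by
    rw [Finset.sum_mul]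
    refine Finset.sum_congr rfl fun n hn => ?_
    rw [← hav J le_rfl n hn, dq_eq, mul_pow]
  have hcen := hY f hf N A hR (q J) hqJ hlog (by rw [← hv]; exact hV)
  rw [← hv] at hcen
  have hle : ∑ n ∈ Om, (cls A N Y (q J) n : ℝ) ^ 2 ≤
      K * ((Y : ℝ) / q J) * Y * v ^ 2 / P f (q J) := by
    refine le_trans ?_ hcen
    apply Finset.sum_le_sum_of_subset_of_nonneg
    · rw [hOm, RC]
      exact filter_subset _ _
    · intro n _ _
      positivity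
  have hYv : (Y : ℝ) * v ≠ 0 := by
    intro h5
    have h6 : (C : ℝ) * ((Y : ℝ) / q J) * v = C * (Y * v) / q J := by ring
    rw [h6, h5] at hV
    simp at hV
    linarith
  have hY0 : (Y : ℝ) ≠ 0 := left_ne_zero_of_mul hYv
  have hv0 : v ≠ 0 := right_ne_zero_of_mul hYv
  calc ∑ n ∈ Om, av Om (c J) g n ^ 2 - ∑ n ∈ Om, av Om (c 0) g n ^ 2
      ≤ ∑ n ∈ Om, av Om (c J) g n ^ 2 := by linarith
    _ = (∑ n ∈ Om, (cls A N Y (q J) n : ℝ) ^ 2) * (q J * P f (q J) / (Y * v)) ^ 2 := hJ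
    _ ≤ (K * ((Y : ℝ) / q J) * Y * v ^ 2 / P f (q J)) * (q J * P f (q J) / (Y * v)) ^ 2 :=
        mul_le_mul_of_nonneg_right hle (sq_nonneg _)
    _ = K * (q J * P f (q J)) := by
        have := hP.ne'
        have := hqp.ne'
        field_simp
    _ = K * (Om.card : ℝ) := by rw [hOm, hcard]

end Pool.Agent.N610.CH
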