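import Pool.Agent.N610.JW.Stm

set_option autoImplicit false

/-!
# Jump inequality along chains of moduli for prime values of polynomials: statements
(project CH, helper610)
-/

namespace Pool.Agent.N610.CH

open Polynomial Finset Filter
open Pool.Agent.H373R2.T7 (nuB PerB pz)
open Pool.Agent.W123.RU (CoG)
open Pool.Agent.W123.RU.Poly (Q Sys)
open Pool.Agent.N610.JV (Jumps)
open Pool.Agent.N610.JW (SysH om V Rough)

/-! ### Martingales -/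

open Classical in
/-- the mean value of `g` over the elements of `Ω` with the same label as `n` -/
noncomputable def av (Ω : Finset ℕ) (c : ℕ → ℕ) (g : ℕ → ℝ) (n : ℕ) : ℝ :=
  (∑ b ∈ Ω.filter (fun b => c b = c n), g b) / ((Ω.filter (fun b => c b = c n)).card : ℝ)

/-- the jump inequality for finite martingales (nested partitions with labels `c j`) -/
def S_MGJ : Prop := ∀ (Ω : Finset ℕ) (J : ℕ) (c : ℕ → ℕ → ℕ) (g : ℕ → ℝ),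
  (∀ j < J, ∀ n ∈ Ω, ∀ m ∈ Ω, c (j + 1) n = c (j + 1) m → c j n = c j m) →
    ∀ lam : ℝ, 0 < lam → ∀ M : ℕ → ℕ, (∀ n ∈ Ω, Jumps (fun j => av Ω (c j) g n) 0 J lam (M n)) →
      lam ^ 2 * ∑ n ∈ Ω, (M n : ℝ) ≤ 4 * ∑ n ∈ Ω, g n ^ 2

/-! ### Residue classes -/

/-- `a` is a reduced class mod `q` for the system: no prime factor of `q` divides a value `f i (a)` -/
def Red {k : ℕ} (f : Fin k → ℤ[X]) (q a : ℕ) : Prop :=
  ∀ p : ℕ, p.Prime → p ∣ q → ∀ i, ¬ (p : ℤ) ∣ (f i).eval (a : ℤ)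

/-- `∏_{p ∣ q} (1 - ω(p) / p)` -/
noncomputable def P {k : ℕ} (f : Fin k → ℤ[X]) (q : ℕ) : ℝ :=
  ∏ p ∈ q.primeFactors, (1 - (om f p : ℝ) / p)

open Classical in
/-- the reduced classes mod `q` -/
noncomputable def RC {k : ℕ} (f : Fin k → ℤ[X]) (q : ℕ) : Finset ℕ :=
  (range q).filter (fun b => Red f q b)

open Classical in
/-- the number of the elements `m` of `A` in `(N, N + Y]` with `m ≡ a mod q` -/
noncomputable def cls (A : Set ℕ) (N Y q a : ℕ) : ℕ :=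
  ((Ioc N (N + Y)).filter (fun m => m ∈ A ∧ m % q = a % q)).card

open Classical in
/-- number of the reduced classes mod `q'` above a reduced class mod `q` -/
def S_CRT : Prop := ∀ (k : ℕ) (f : Fin k → ℤ[X]) (q q' n : ℕ), 1 ≤ q → 1 ≤ q' → q ∣ q' → Red f q n →
  (((RC f q').filter (fun b => b % q = n % q)).card : ℝ) * (q * P f q) = q' * P f q'

open Classical in
/-- all prime divisors of the collision polynomial at `h`, uniformly in the system -/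
def S_COL2 : Prop := ∀ k d C : ℕ, 1 ≤ k → 1 ≤ d → 1 ≤ C → ∃ D' : ℕ, ∀ᶠ Y : ℕ in atTop,
  ∀ f : Fin k → ℤ[X], SysH k d ((Y : ℝ) ^ C) f → PerB (Q f) (k * d) ∧
    ∃ E : Finset ℕ, E.card ≤ k ^ 2 ∧ ∀ y : ℕ, ∀ h ∈ Icc 1 Y, h ∉ E →
      (((pz y).filter (fun p : ℕ => CoG (Q f) p h)).card : ℝ) ≤ D' * Real.log Y

/-- second moment in residue classes, uniformly in the system and in the modulus -/
def S_CEN : Prop := ∀ k d C r : ℕ, 1 ≤ k → 1 ≤ d → 1 ≤ C → 1 ≤ r → ∃ K : ℝ, 0 < K ∧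
  ∀ᶠ Y : ℕ in atTop, ∀ f : Fin k → ℤ[X], SysH k d ((Y : ℝ) ^ C) f → ∀ (N : ℕ) (A : Set ℕ),
    Rough f A ((Y : ℝ) ^ (1 / (r : ℝ))) N (N + Y) → ∀ q : ℕ, 1 ≤ q →
      Real.log Y ≤ C * ((Y : ℝ) / q) → 1 ≤ C * ((Y : ℝ) / q) * V f Y →
        ∑ a ∈ range q, (cls A N Y q a : ℝ) ^ 2 ≤ K * ((Y : ℝ) / q) * Y * V f Y ^ 2 / P f q

/-- the density of `A` (in the window `(N, N + Y]`) in the class of `n` mod `q`, relative to
`v / (q ∏_{p ∣ q} (1 - ω(p) / p))` -/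
noncomputable def dq {k : ℕ} (f : Fin k → ℤ[X]) (A : Set ℕ) (v : ℝ) (N Y q n : ℕ) : ℝ :=
  (cls A N Y q n : ℝ) / (Y * v / (q * P f q))

/-- **jump inequality along chains of moduli** -/
def S_CHJ : Prop := ∀ k d C r : ℕ, 1 ≤ k → 1 ≤ d → 1 ≤ C → 1 ≤ r → ∃ K : ℝ, 0 < K ∧
  ∀ᶠ Y : ℕ in atTop, ∀ f : Fin k → ℤ[X], SysH k d ((Y : ℝ) ^ C) f → ∀ (N : ℕ) (A : Set ℕ),
    Rough f A ((Y : ℝ) ^ (1 / (r : ℝ))) N (N + Y) → ∀ (J : ℕ) (q : ℕ → ℕ),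
      (∀ j < J, q j ∣ q (j + 1)) → 1 ≤ q J → Real.log Y ≤ C * ((Y : ℝ) / q J) →
        1 ≤ C * ((Y : ℝ) / q J) * V f Y → (∀ m ∈ A, N < m → m ≤ N + Y → Red f (q J) m) →
          ∀ lam : ℝ, 0 < lam → ∀ M : ℕ → ℕ,
            (∀ n ∈ RC f (q J), Jumps (fun j => dq f A (V f Y) N Y (q j) n) 0 J lam (M n)) →
              ∑ n ∈ RC f (q J), (M n : ℝ) ≤ K * (RC f (q J)).card / lam ^ 2

open Classical in
/-- all but a bounded number of the steps are uniform -/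
def S_CST : Prop := ∀ k d C r : ℕ, 1 ≤ k → 1 ≤ d → 1 ≤ C → 1 ≤ r → ∃ K : ℝ, 0 < K ∧
  ∀ᶠ Y : ℕ in atTop, ∀ f : Fin k → ℤ[X], SysH k d ((Y : ℝ) ^ C) f → ∀ (N : ℕ) (A : Set ℕ),
    Rough f A ((Y : ℝ) ^ (1 / (r : ℝ))) N (N + Y) → ∀ (J : ℕ) (q : ℕ → ℕ),
      (∀ j < J, q j ∣ q (j + 1)) → 1 ≤ q J → Real.log Y ≤ C * ((Y : ℝ) / q J) →
        1 ≤ C * ((Y : ℝ) / q J) * V f Y → (∀ m ∈ A, N < m → m ≤ N + Y → Red f (q J) m) →
          ∀ ε : ℝ, 0 < ε → (((range J).filter (fun j => ε * (RC f (q J)).card <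
            (((RC f (q J)).filter (fun n => ε ≤ |dq f A (V f Y) N Y (q (j + 1)) n -
              dq f A (V f Y) N Y (q j) n|)).card : ℝ))).card : ℝ) ≤ K / ε ^ 3

/-- **jump inequality along chains of moduli, every fixed system** -/
def S_CCO : Prop := ∀ (k : ℕ) (f : Fin k → ℤ[X]), 1 ≤ k → (∀ i, Irreducible (f i)) →
  (∀ i, 0 < (f i).natDegree) → (∀ i j, i ≠ j → f i ≠ f j ∧ f i ≠ -f j) →
    ∀ θ : ℝ, 0 < θ → θ ≤ 1 → ∃ K : ℝ, 0 < K ∧ ∀ᶠ X : ℕ in atTop, ∀ Y : ℕ, (X : ℝ) ^ θ ≤ Y → Y ≤ X →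
      ∀ A : Set ℕ, (∀ m ∈ A, ∀ i, ((f i).eval (m : ℤ)).natAbs.Prime) → ∀ (J : ℕ) (q : ℕ → ℕ),
        (∀ j < J, q j ∣ q (j + 1)) → 1 ≤ q J → q J * Real.log X ^ k ≤ Y →
          (∀ m ∈ A, X < m → m ≤ X + Y → Red f (q J) m) → ∀ lam : ℝ, 0 < lam → ∀ M : ℕ → ℕ,
            (∀ n ∈ RC f (q J), Jumps (fun j => dq f A (1 / Real.log X ^ k) X Y (q j) n) 0 J lam (M n)) →
              ∑ n ∈ RC f (q J), (M n : ℝ) ≤ K * (RC f (q J)).card / lam ^ 2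

end Pool.Agent.N610.CH
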