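import Pool.Agent.N610.CH.Stm

set_option autoImplicit false

/-!
# Chains of moduli: orthogonality and digits, statements (project CH, helper610)
-/

namespace Pool.Agent.N610.CH

open Polynomial Finset Filter
open Pool.Agent.N610.JW (SysH om V Rough)

/-- the sum of the squares of all the steps -/
def S_ORT : Prop := ∀ k d C r : ℕ, 1 ≤ k → 1 ≤ d → 1 ≤ C → 1 ≤ r → ∃ K : ℝ, 0 < K ∧
  ∀ᶠ Y : ℕ in atTop, ∀ f : Fin k → ℤ[X], SysH k d ((Y : ℝ) ^ C) f → ∀ (N : ℕ) (A : Set ℕ),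
    Rough f A ((Y : ℝ) ^ (1 / (r : ℝ))) N (N + Y) → ∀ (J : ℕ) (q : ℕ → ℕ),
      (∀ j < J, q j ∣ q (j + 1)) → 1 ≤ q J → Real.log Y ≤ C * ((Y : ℝ) / q J) →
        1 ≤ C * ((Y : ℝ) / q J) * V f Y → (∀ m ∈ A, N < m → m ≤ N + Y → Red f (q J) m) →
          ∑ j ∈ range J, ∑ n ∈ RC f (q J),
            (dq f A (V f Y) N Y (q (j + 1)) n - dq f A (V f Y) N Y (q j) n) ^ 2 ≤
              K * (RC f (q J)).card

open Classical in
/-- digits in base `b` of the integers at which all the values of a fixed system are prime -/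
def S_DIG : Prop := ∀ (k : ℕ) (f : Fin k → ℤ[X]), 1 ≤ k → (∀ i, Irreducible (f i)) →
  (∀ i, 0 < (f i).natDegree) → (∀ i j, i ≠ j → f i ≠ f j ∧ f i ≠ -f j) → ∀ b : ℕ, 2 ≤ b →
    ∀ θ : ℝ, 0 < θ → θ ≤ 1 → ∃ K : ℝ, 0 < K ∧ ∀ᶠ X : ℕ in atTop, ∀ Y : ℕ, (X : ℝ) ^ θ ≤ Y → Y ≤ X →
      ∀ A : Set ℕ, (∀ m ∈ A, ∀ i, ((f i).eval (m : ℤ)).natAbs.Prime) →
        ∀ J : ℕ, (b : ℝ) ^ J * Real.log X ^ k ≤ Y → ∀ ε : ℝ, 0 < ε →
          (((Ico 1 J).filter (fun j => ∃ c < b, ε * (Y / Real.log X ^ k) <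
            |(((Ioc X (X + Y)).filter (fun m => m ∈ A ∧ m / b ^ j % b = c)).card : ℝ) -
              (((Ioc X (X + Y)).filter (fun m => m ∈ A)).card : ℝ) / b|)).card : ℝ) ≤ K / ε ^ 2

end Pool.Agent.N610.CH
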